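import Pool.Agent.N886.SE.Sand

/-!
# Bounds for the determinants of exponentials, and perturbations of determinants
-/

set_option autoImplicit false

namespace Pool.Agent.N886.SE

open Finset MeasureTheory Matrix

/-- the number of pairs -/
def en (n : ℕ) : ℕ := ∑ k ∈ range n, k

theorem en_two (n : ℕ) : (en n : ℝ) * 2 = n * (n - 1) := by
  have h := Finset.sum_range_id_mul_two n
  unfold en
  rcases Nat.eq_zero_or_pos n with h0 | h0
  · subst h0; simp
  · have h1 : ((n - 1 : ℕ) : ℝ) = n - 1 := by push_cast [Nat.cast_sub h0]; ring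
    rw [← h1]
    exact_mod_cast h

theorem sum_card_Ioi (n : ℕ) : ∑ i : Fin n, (Ioi i).card = en n := by
  have h : ∀ i : Fin n, (Ioi i).card = n - 1 - (i : ℕ) := fun i => by simp
  simp_rw [h]
  rw [Fin.sum_univ_eq_sum_range (fun i => n - 1 - i) n]
  unfold en
  exact Finset.sum_range_reflect (fun i => i) n

theorem Vd_le {n : ℕ} {x : Fin n → ℝ} (hx : Monotone x) {R : ℝ} (hR : ∀ i j, x j - x i ≤ R) :
    Vd x ≤ R ^ en n := by
  rw [← sum_card_Ioi, ← prod_pow_eq_pow_sum]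
  unfold Vd
  refine prod_le_prod (fun i _ => prod_nonneg fun j hj => sub_nonneg.2 (hx (mem_Ioi.1 hj).le)) fun i _ => ?_
  rw [← prod_const]
  exact prod_le_prod (fun j hj => sub_nonneg.2 (hx (mem_Ioi.1 hj).le)) fun j _ => hR i j

theorem le_Vd {n : ℕ} {x : Fin n → ℝ} {g : ℝ} (hg : 0 ≤ g) (hx : ∀ i j, i < j → g ≤ x j - x i) :
    g ^ en n ≤ Vd x := by
  rw [← sum_card_Ioi, ← prod_pow_eq_pow_sum]
  unfold Vd
  refine prod_le_prod (fun i _ => pow_nonneg hg _) fun i _ => ?_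
  rw [← prod_const]
  exact prod_le_prod (fun j _ => hg) fun j hj => hx i j (mem_Ioi.1 hj)

theorem pow_en_le (n : ℕ) {X lam : ℝ} (hX : 0 ≤ X) (hl : 0 < lam) :
    X ^ en n ≤ SF n * Real.exp (n * (lam * X)) * (lam ^ en n)⁻¹ := by
  have h1 : (lam * X) ^ en n ≤ SF n * Real.exp (n * (lam * X)) := by
    have h2 : Real.exp (n * (lam * X)) = ∏ _k ∈ range n, Real.exp (lam * X) := by
      rw [prod_const, card_range, ← Real.exp_nat_mul]
    unfold en SF
    rw [← prod_pow_eq_pow_sum, h2, ← prod_mul_distrib]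
    refine prod_le_prod (fun k _ => by positivity) fun k _ => ?_
    have h3 := Real.pow_div_factorial_le_exp (lam * X) (by positivity) k
    rw [div_le_iff₀ (by positivity)] at h3
    linarith
  rw [mul_pow] at h1
  rw [← div_eq_mul_inv, le_div_iff₀ (by positivity)]
  linarith

theorem SF_le (n : ℕ) : SF n ≤ (n : ℝ) ^ en n := by
  unfold SF en
  rw [← prod_pow_eq_pow_sum]
  refine prod_le_prod (fun k _ => by positivity) fun k hk => ?_
  have h1 : (k.factorial : ℝ) ≤ (k : ℝ) ^ k := by exact_mod_cast Nat.factorial_le_pow k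
  refine h1.trans ?_
  have : (k : ℝ) ≤ n := by exact_mod_cast (mem_range.1 hk).le
  exact pow_le_pow_left₀ (by positivity) this _

/-- upper bound -/
theorem K_le {n : ℕ} (hn : 4 ≤ n) (w z : Fin n → ℝ) (hw0 : ∀ i, 0 ≤ w i) (hw : Monotone w) (hz : Monotone z)
    {W Z : ℝ} (hW : ∀ i, w i ≤ W) (hZ : ∀ j, |z j| ≤ Z) (hcond : 222 * (Z * W) ≤ n) :
    K w z ≤ Real.exp (-(n : ℝ) ^ 2) := by
  have hn0 : 0 < n := by omega
  have hZ0 : 0 ≤ Z := (abs_nonneg _).trans (hZ ⟨0, hn0⟩)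
  have hW0 : 0 ≤ W := (hw0 ⟨0, hn0⟩).trans (hW _)
  have h1 := (sandwich Z n w z hw0 hw hz hZ).2
  have hVw : Vd w ≤ W ^ en n := Vd_le hw fun i j => by linarith [hW j, hw0 i]
  have hVz : Vd z ≤ (2 * Z) ^ en n := Vd_le hz fun i j => by
    have := abs_le.1 (hZ j)
    have := abs_le.1 (hZ i)
    linarith
  have hs : ∑ i, w i ≤ n * W := by
    have := sum_le_sum (fun (i : Fin n) (_ : i ∈ univ) => hW i)
    refine this.trans ?_
    rw [sum_const, card_univ, Fintype.card_fin, nsmul_eq_mul]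
  set lam : ℝ := Real.exp 4 with hlam
  have hlam0 : 0 < lam := Real.exp_pos _
  have hlam1 : lam ≤ 55 := by
    have h := Real.exp_one_lt_d9
    have h2 : lam = Real.exp 1 ^ 4 := by rw [hlam, ← Real.exp_nat_mul]; norm_num
    rw [h2]
    calc Real.exp 1 ^ 4 ≤ (2.7182818286 : ℝ) ^ 4 := pow_le_pow_left₀ (Real.exp_pos _).le h.le _
      _ ≤ 55 := by norm_num
  have h2 : Vd w * Vd z ≤ (W * (2 * Z)) ^ en n := by
    rw [mul_pow]
    exact mul_le_mul hVw hVz (Vd_nonneg hz) (by positivity)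
  have h3 := pow_en_le n (X := W * (2 * Z)) (by positivity) hlam0
  have hSF := SF_pos n
  have h4 : SF n * K w z ≤ Real.exp (Z * (n * W)) *
      (SF n * Real.exp (n * (lam * (W * (2 * Z)))) * (lam ^ en n)⁻¹) := by
    refine h1.trans ?_
    refine mul_le_mul (Real.exp_le_exp.2 (mul_le_mul_of_nonneg_left hs hZ0)) (h2.trans h3)
      (mul_nonneg (Vd_nonneg hw) (Vd_nonneg hz)) (Real.exp_pos _).le
  have h5 : K w z ≤ Real.exp (Z * (n * W)) * (Real.exp (n * (lam * (W * (2 * Z)))) * (lam ^ en n)⁻¹) := by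
    refine le_of_mul_le_mul_left (h4.trans (le_of_eq ?_)) hSF
    ring
  have h6 : (lam ^ en n)⁻¹ = Real.exp (-(4 * en n)) := by
    rw [hlam, ← Real.exp_nat_mul, ← Real.exp_neg]
    congr 1
    ring
  rw [h6, ← Real.exp_add, ← Real.exp_add] at h5
  refine h5.trans (Real.exp_le_exp.2 ?_)
  have h7 := en_two n
  have hn4 : (4 : ℝ) ≤ n := by exact_mod_cast hn
  have h8 : lam * (W * (2 * Z)) ≤ 110 * (Z * W) := by nlinarith [mul_nonneg hZ0 hW0]
  have h9 : (n : ℝ) * (lam * (W * (2 * Z))) ≤ n * (110 * (Z * W)) :=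
    mul_le_mul_of_nonneg_left h8 (by positivity)
  have h10 : (n : ℝ) * (222 * (Z * W)) ≤ n * n := mul_le_mul_of_nonneg_left hcond (by positivity)
  nlinarith

/-- lower bound -/
theorem le_K {n : ℕ} (hn : 1 ≤ n) (w z : Fin n → ℝ) (hw0 : ∀ i, 0 ≤ w i) (hw : Monotone w) (hz : Monotone z)
    {W Z A G : ℝ} (hW : ∀ i, w i ≤ W) (hZ : ∀ j, |z j| ≤ Z)
    (hA : ∀ i j, i < j → Real.exp (-A) ≤ w j - w i) (hG : ∀ i j, i < j → Real.exp (-G) ≤ z j - z i)
    (hA0 : 0 ≤ A) (hG0 : 0 ≤ G) :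
    Real.exp (-(n * (Z * W) + (A + G + Real.log n) * (n : ℝ) ^ 2 / 2)) ≤ K w z := by
  have hn0 : 0 < n := by omega
  have hnR : (1 : ℝ) ≤ n := by exact_mod_cast hn
  have hZ0 : 0 ≤ Z := (abs_nonneg _).trans (hZ ⟨0, hn0⟩)
  have hW0 : 0 ≤ W := (hw0 ⟨0, hn0⟩).trans (hW _)
  have h1 := (sandwich Z n w z hw0 hw hz hZ).1
  have hs : ∑ i, w i ≤ n * W := by
    have := sum_le_sum (fun (i : Fin n) (_ : i ∈ univ) => hW i)
    refine this.trans ?_
    rw [sum_const, card_univ, Fintype.card_fin, nsmul_eq_mul]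
  have hVw : Real.exp (-A) ^ en n ≤ Vd w := le_Vd (Real.exp_pos _).le hA
  have hVz : Real.exp (-G) ^ en n ≤ Vd z := le_Vd (Real.exp_pos _).le hG
  have hSF := SF_pos n
  have h2 : Real.exp (-(Z * (n * W))) * (Real.exp (-A) ^ en n * Real.exp (-G) ^ en n) ≤ SF n * K w z := by
    refine le_trans ?_ h1
    refine mul_le_mul (Real.exp_le_exp.2 ?_) (mul_le_mul hVw hVz (by positivity) (Vd_nonneg hw))
      (by positivity) (Real.exp_pos _).le
    have := mul_le_mul_of_nonneg_left hs hZ0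
    linarith
  have h3 := SF_le n
  have h4 : (n : ℝ) ^ en n = Real.exp (en n * Real.log n) := by
    rw [mul_comm, Real.exp_mul, Real.exp_log (by linarith), Real.rpow_natCast]
  have hlog : 0 ≤ Real.log n := Real.log_nonneg hnR
  have hK0 : 0 ≤ K w z := by
    by_contra hneg
    push Not at hneg
    have h5 : 0 < Real.exp (-(Z * (n * W))) * (Real.exp (-A) ^ en n * Real.exp (-G) ^ en n) := by positivity
    nlinarith
  have h5 : SF n * K w z ≤ Real.exp (en n * Real.log n) * K w z := by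
    rw [← h4]
    exact mul_le_mul_of_nonneg_right h3 hK0
  have h6 := h2.trans h5
  rw [← Real.exp_nat_mul, ← Real.exp_nat_mul, ← Real.exp_add, ← Real.exp_add] at h6
  have h7 : Real.exp (-(Z * (n * W)) + (en n * -A + en n * -G) - en n * Real.log n) ≤ K w z := by
    rw [Real.exp_sub, div_le_iff₀ (Real.exp_pos _)]
    linarith
  refine (Real.exp_le_exp.2 ?_).trans h7
  have h8 := en_two n
  have h9 : (en n : ℝ) ≤ (n : ℝ) ^ 2 / 2 := by nlinarith
  have h10 : (en n : ℝ) * (A + G + Real.log n) ≤ (n : ℝ) ^ 2 / 2 * (A + G + Real.log n) :=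
    mul_le_mul_of_nonneg_right h9 (by positivity)
  nlinarith

/-- products of close numbers -/
theorem prod_sub_prod_le {ι : Type*} (s : Finset ι) (a b : ι → ℝ) {B ε : ℝ} (hB : 1 ≤ B)
    (ha : ∀ i ∈ s, |a i| ≤ B) (hb : ∀ i ∈ s, |b i| ≤ B) (h : ∀ i ∈ s, |a i - b i| ≤ ε) (hε : 0 ≤ ε) :
    |∏ i ∈ s, a i - ∏ i ∈ s, b i| ≤ s.card * B ^ s.card * ε := by
  classical
  induction s using Finset.induction_on with
  | empty => simp
  | insert x s hx ih =>
    rw [prod_insert hx, prod_insert hx, card_insert_of_notMem hx]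
    have h1 := ih (fun i hi => ha i (mem_insert_of_mem hi)) (fun i hi => hb i (mem_insert_of_mem hi))
      (fun i hi => h i (mem_insert_of_mem hi))
    have h2 : |∏ i ∈ s, a i| ≤ B ^ s.card := by
      rw [abs_prod, ← prod_const]
      exact prod_le_prod (fun i _ => abs_nonneg _) fun i hi => ha i (mem_insert_of_mem hi)
    have h3 : a x * ∏ i ∈ s, a i - b x * ∏ i ∈ s, b i =
        (a x - b x) * ∏ i ∈ s, a i + b x * (∏ i ∈ s, a i - ∏ i ∈ s, b i) := by ring
    rw [h3]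
    refine (abs_add_le _ _).trans ?_
    rw [abs_mul, abs_mul]
    have h4 := h x (mem_insert_self _ _)
    have h5 := hb x (mem_insert_self _ _)
    have hBp : (0 : ℝ) ≤ B ^ s.card := by positivity
    have hBp1 : B ^ s.card ≤ B ^ (s.card + 1) := pow_le_pow_right₀ hB (Nat.le_succ _)
    calc |a x - b x| * |∏ i ∈ s, a i| + |b x| * |∏ i ∈ s, a i - ∏ i ∈ s, b i|
        ≤ ε * B ^ s.card + B * (s.card * B ^ s.card * ε) := by
          refine add_le_add (mul_le_mul h4 h2 (abs_nonneg _) hε) (mul_le_mul h5 h1 (abs_nonneg _) (by linarith))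
      _ ≤ ε * B ^ (s.card + 1) + B * (s.card * B ^ s.card * ε) := by
          have := mul_le_mul_of_nonneg_left hBp1 hε
          linarith
      _ = _ := by
          rw [pow_succ]
          push_cast
          ring

/-- determinants of close matrices -/
theorem det_sub_det_le {n : ℕ} (M N : Matrix (Fin n) (Fin n) ℝ) {B ε : ℝ} (hB : 1 ≤ B)
    (hM : ∀ i j, |M i j| ≤ B) (hN : ∀ i j, |N i j| ≤ B) (h : ∀ i j, |M i j - N i j| ≤ ε) (hε : 0 ≤ ε) :
    |M.det - N.det| ≤ n.factorial * (n * B ^ n * ε) := by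
  rw [Matrix.det_apply', Matrix.det_apply', ← sum_sub_distrib]
  refine (abs_sum_le_sum_abs _ _).trans ?_
  have h1 : ∀ σ : Equiv.Perm (Fin n), |((Equiv.Perm.sign σ : ℤ) : ℝ) * ∏ i, M (σ i) i -
      ((Equiv.Perm.sign σ : ℤ) : ℝ) * ∏ i, N (σ i) i| ≤ n * B ^ n * ε := by
    intro σ
    rw [← mul_sub, abs_mul]
    have h2 : |((Equiv.Perm.sign σ : ℤ) : ℝ)| = 1 := by
      rcases Int.units_eq_one_or (Equiv.Perm.sign σ) with h | h <;> simp [h]
    rw [h2, one_mul]
    have := prod_sub_prod_le univ (fun i => M (σ i) i) (fun i => N (σ i) i) hB (fun i _ => hM _ _)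
      (fun i _ => hN _ _) (fun i _ => h _ _) hε
    simpa using this
  refine (sum_le_sum fun σ _ => h1 σ).trans ?_
  rw [sum_const, card_univ, Fintype.card_perm, Fintype.card_fin, nsmul_eq_mul]

end Pool.Agent.N886.SE
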