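import Mathlib

/-!
# Sets of integers any three of which are multiplicatively dependent
-/

set_option autoImplicit false

namespace Pool.Agent.N886.SE

open Finset

/-- a multiplicative relation gives relations between the valuations -/
theorem val_rel {a b n : ℕ} (ha : a ≠ 0) (hb : b ≠ 0) (hn : n ≠ 0) {x y z : ℤ}
    (h : (a : ℚ) ^ x * (b : ℚ) ^ y * (n : ℚ) ^ z = 1) (p : ℕ) [Fact p.Prime] :
    x * padicValNat p a + y * padicValNat p b + z * padicValNat p n = 0 := by
  have ha' : (a : ℚ) ≠ 0 := by exact_mod_cast ha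
  have hb' : (b : ℚ) ≠ 0 := by exact_mod_cast hb
  have hn' : (n : ℚ) ≠ 0 := by exact_mod_cast hn
  have h1 := congrArg (padicValRat p) h
  rw [padicValRat.mul (mul_ne_zero (zpow_ne_zero _ ha') (zpow_ne_zero _ hb')) (zpow_ne_zero _ hn'),
    padicValRat.mul (zpow_ne_zero _ ha') (zpow_ne_zero _ hb'), padicValRat.one] at h1
  rw [padicValRat.zpow, padicValRat.zpow, padicValRat.zpow] at h1
  simpa using h1

theorem eq_of_val {m n : ℕ} (hm : m ≠ 0) (hn : n ≠ 0)
    (h : ∀ p : ℕ, p.Prime → padicValNat p m = padicValNat p n) : m = n := by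
  apply Nat.eq_of_factorization_eq hm hn
  intro p
  by_cases hp : p.Prime
  · rw [Nat.factorization_def _ hp, Nat.factorization_def _ hp]
    exact h p hp
  · rw [Nat.factorization_eq_zero_of_not_prime _ hp, Nat.factorization_eq_zero_of_not_prime _ hp]

theorem val_le_log {n N p : ℕ} (hn : 1 ≤ n) (hN : n ≤ N) (hp : p.Prime) : padicValNat p n ≤ Nat.log 2 N := by
  have : Fact p.Prime := ⟨hp⟩
  have h1 : p ^ padicValNat p n ∣ n := pow_padicValNat_dvd
  have h2 : p ^ padicValNat p n ≤ n := Nat.le_of_dvd hn h1
  have h3 : 2 ^ padicValNat p n ≤ N := (Nat.pow_le_pow_left hp.two_le _).trans (h2.trans hN)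
  exact Nat.le_log_of_pow_le (by norm_num) h3

theorem zpow_one_of_two_le {a : ℕ} (ha : 2 ≤ a) {x : ℤ} (h : (a : ℚ) ^ x = 1) : x = 0 := by
  have h1 : (1 : ℚ) < a := by exact_mod_cast ha
  exact (zpow_eq_one_iff_right₀ (by linarith) h1.ne').1 h

/-- **Counting.** -/
theorem card_le_base (E : Finset ℕ) (N a : ℕ) (ha2 : 2 ≤ a) (hE : ∀ n ∈ E, 2 ≤ n ∧ n ≤ N)
    (h : ∀ b ∈ E, ∀ c ∈ E, ∃ x y z : ℤ, (x ≠ 0 ∨ y ≠ 0 ∨ z ≠ 0) ∧
      (a : ℚ) ^ x * (b : ℚ) ^ y * (c : ℚ) ^ z = 1) : E.card ≤ (Nat.log 2 N + 1) ^ 2 := by
  by_cases hcase : ∃ b ∈ E, ∀ x y : ℤ, (a : ℚ) ^ x * (b : ℚ) ^ y = 1 → x = 0 ∧ y = 0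
  · obtain ⟨b, hb, hind⟩ := hcase
    have hb2 := (hE b hb).1
    set p := a.minFac with hp
    have hpp : p.Prime := Nat.minFac_prime (by omega)
    have : Fact p.Prime := ⟨hpp⟩
    have hpa : padicValNat p a ≠ 0 := by
      have := one_le_padicValNat_of_dvd (p := p) (by omega) (Nat.minFac_dvd a)
      omega
    have hq : ∃ q : ℕ, q.Prime ∧ padicValNat p a * padicValNat q b ≠ padicValNat q a * padicValNat p b := by
      by_contra hno
      push Not at hno
      have h1 : b ^ padicValNat p a = a ^ padicValNat p b := by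
        refine eq_of_val (pow_ne_zero _ (by omega)) (pow_ne_zero _ (by omega)) fun q hq => ?_
        have : Fact q.Prime := ⟨hq⟩
        rw [padicValNat.pow, padicValNat.pow]
        have := hno q hq
        linarith
      have h2 := hind (padicValNat p b) (-(padicValNat p a : ℤ)) (by
        rw [zpow_neg, zpow_natCast, zpow_natCast]
        have h3 : ((b : ℚ)) ^ padicValNat p a = (a : ℚ) ^ padicValNat p b := by exact_mod_cast h1
        rw [h3]
        refine mul_inv_cancel₀ (pow_ne_zero _ ?_)
        exact_mod_cast (by omega : a ≠ 0))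
      have := h2.2
      omega
    obtain ⟨q, hqq, hmin⟩ := hq
    have : Fact q.Prime := ⟨hqq⟩
    have hcard : (E.image fun n => (padicValNat p n, padicValNat q n)).card = E.card := by
      refine card_image_of_injOn ?_
      intro n hn n' hn' heq
      simp only [Prod.mk.injEq] at heq
      have hn2 := (hE n hn).1
      have hn2' := (hE n' hn').1
      obtain ⟨x, y, z, hxyz, hrel⟩ := h b hb n hn
      obtain ⟨x', y', z', hxyz', hrel'⟩ := h b hb n' hn'
      have hz : z ≠ 0 := by
        rintro rfl
        rw [zpow_zero, mul_one] at hrel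
        have := hind x y hrel
        omega
      have hz' : z' ≠ 0 := by
        rintro rfl
        rw [zpow_zero, mul_one] at hrel'
        have := hind x' y' hrel'
        omega
      have key : ∀ r : ℕ, r.Prime → z * z' * ((padicValNat r n : ℤ) - padicValNat r n') =
          (z * x' - z' * x) * padicValNat r a + (z * y' - z' * y) * padicValNat r b := by
        intro r hr
        have : Fact r.Prime := ⟨hr⟩
        have e1 := val_rel (by omega) (by omega) (by omega) hrel r
        have e2 := val_rel (by omega) (by omega) (by omega) hrel' r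
        linear_combination z' * e1 - z * e2
      have k1 := key p hpp
      have k2 := key q hqq
      rw [heq.1, sub_self, mul_zero] at k1
      rw [heq.2, sub_self, mul_zero] at k2
      have hdet : ((padicValNat p a : ℤ) * padicValNat q b - padicValNat q a * padicValNat p b) ≠ 0 := by
        intro h0
        apply hmin
        have : (padicValNat p a : ℤ) * padicValNat q b = padicValNat q a * padicValNat p b := by linarith
        exact_mod_cast this
      have hX : z * x' - z' * x = 0 := by
        have : (z * x' - z' * x) *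
            ((padicValNat p a : ℤ) * padicValNat q b - padicValNat q a * padicValNat p b) = 0 := by
          linear_combination (-(padicValNat q b : ℤ)) * k1 + (padicValNat p b : ℤ) * k2
        exact (mul_eq_zero.1 this).resolve_right hdet
      have hY : z * y' - z' * y = 0 := by
        have : (z * y' - z' * y) *
            ((padicValNat p a : ℤ) * padicValNat q b - padicValNat q a * padicValNat p b) = 0 := by
          linear_combination ((padicValNat q a : ℤ)) * k1 - (padicValNat p a : ℤ) * k2
        exact (mul_eq_zero.1 this).resolve_right hdet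
      refine eq_of_val (by omega) (by omega) fun r hr => ?_
      have k3 := key r hr
      rw [hX, hY, zero_mul, zero_mul, add_zero] at k3
      have := (mul_eq_zero.1 k3).resolve_left (mul_ne_zero hz hz')
      omega
    rw [← hcard]
    have hsub : (E.image fun n => (padicValNat p n, padicValNat q n)) ⊆
        range (Nat.log 2 N + 1) ×ˢ range (Nat.log 2 N + 1) := by
      intro t ht
      obtain ⟨n, hn, rfl⟩ := mem_image.1 ht
      rw [mem_product, mem_range, mem_range]
      have h1 := hE n hn
      exact ⟨Nat.lt_succ_of_le (val_le_log (by omega) h1.2 hpp),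
        Nat.lt_succ_of_le (val_le_log (by omega) h1.2 hqq)⟩
    refine (card_le_card hsub).trans ?_
    rw [card_product, card_range]
    exact (sq _).ge
  · push Not at hcase
    set p := a.minFac with hp
    have hpp : p.Prime := Nat.minFac_prime (by omega)
    have : Fact p.Prime := ⟨hpp⟩
    have hpa : padicValNat p a ≠ 0 := by
      have := one_le_padicValNat_of_dvd (p := p) (by omega) (Nat.minFac_dvd a)
      omega
    have hcard : (E.image fun n => padicValNat p n).card = E.card := by
      refine card_image_of_injOn ?_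
      intro n hn n' hn' heq
      simp only at heq
      have hn2 := (hE n hn).1
      have hn2' := (hE n' hn').1
      obtain ⟨x, y, hrel, hxy⟩ := hcase n hn
      obtain ⟨x', y', hrel', hxy'⟩ := hcase n' hn'
      have hy : y ≠ 0 := by
        rintro rfl
        rw [zpow_zero, mul_one] at hrel
        exact hxy (zpow_one_of_two_le ha2 hrel) rfl
      have hy' : y' ≠ 0 := by
        rintro rfl
        rw [zpow_zero, mul_one] at hrel'
        exact hxy' (zpow_one_of_two_le ha2 hrel') rfl
      have key : ∀ r : ℕ, r.Prime → y * y' * ((padicValNat r n : ℤ) - padicValNat r n') =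
          (y * x' - y' * x) * padicValNat r a := by
        intro r hr
        have : Fact r.Prime := ⟨hr⟩
        have e1 := val_rel (a := a) (b := 1) (n := n) (x := x) (y := 0) (z := y) (by omega) one_ne_zero
          (by omega) (by simpa using hrel) r
        have e2 := val_rel (a := a) (b := 1) (n := n') (x := x') (y := 0) (z := y') (by omega) one_ne_zero
          (by omega) (by simpa using hrel') r
        linear_combination y' * e1 - y * e2
      have k1 := key p hpp
      rw [heq, sub_self, mul_zero] at k1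
      have hX : y * x' - y' * x = 0 := by
        refine (mul_eq_zero.1 k1.symm).resolve_right ?_
        exact_mod_cast hpa
      refine eq_of_val (by omega) (by omega) fun r hr => ?_
      have k3 := key r hr
      rw [hX, zero_mul] at k3
      have := (mul_eq_zero.1 k3).resolve_left (mul_ne_zero hy hy')
      omega
    rw [← hcard]
    have hsub : (E.image fun n => padicValNat p n) ⊆ range (Nat.log 2 N + 1) := by
      intro t ht
      obtain ⟨n, hn, rfl⟩ := mem_image.1 ht
      rw [mem_range]
      have h1 := hE n hn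
      exact Nat.lt_succ_of_le (val_le_log (by omega) h1.2 hpp)
    refine (card_le_card hsub).trans ?_
    rw [card_range]
    exact Nat.le_self_pow (by norm_num) _

/-- **Counting.** -/
theorem card_le (E : Finset ℕ) (N : ℕ) (hE : ∀ n ∈ E, 2 ≤ n ∧ n ≤ N)
    (h : ∀ a ∈ E, ∀ b ∈ E, ∀ c ∈ E, ∃ x y z : ℤ, (x ≠ 0 ∨ y ≠ 0 ∨ z ≠ 0) ∧
      (a : ℚ) ^ x * (b : ℚ) ^ y * (c : ℚ) ^ z = 1) : E.card ≤ (Nat.log 2 N + 1) ^ 2 := by
  rcases E.eq_empty_or_nonempty with rfl | ⟨a, ha⟩
  · simp
  · exact card_le_base E N a (hE a ha).1 hE fun b hb c hc => h a ha b hb c hc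

/-- three different primes are multiplicatively independent -/
theorem primes_card_le (E : Finset ℕ) (hE : ∀ n ∈ E, n.Prime)
    (h : ∀ a ∈ E, ∀ b ∈ E, ∀ c ∈ E, ∃ x y z : ℤ, (x ≠ 0 ∨ y ≠ 0 ∨ z ≠ 0) ∧
      (a : ℚ) ^ x * (b : ℚ) ^ y * (c : ℚ) ^ z = 1) : E.card ≤ 2 := by
  by_contra hcon
  push Not at hcon
  obtain ⟨a, b, c, ha, hb, hc, hab, hac, hbc⟩ := Finset.two_lt_card_iff.1 hcon
  obtain ⟨x, y, z, hne, hrel⟩ := h a ha b hb c hc
  have pa := hE a ha
  have pb := hE b hb
  have pc := hE c hc
  have : Fact a.Prime := ⟨pa⟩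
  have : Fact b.Prime := ⟨pb⟩
  have : Fact c.Prime := ⟨pc⟩
  have z0 : ∀ {s t : ℕ} (hs : s.Prime) (ht : t.Prime), s ≠ t → padicValNat s t = 0 := by
    intro s t hs ht hst
    have : Fact s.Prime := ⟨hs⟩
    have : Fact t.Prime := ⟨ht⟩
    exact padicValNat_primes hst
  have e1 := val_rel pa.ne_zero pb.ne_zero pc.ne_zero hrel a
  have e2 := val_rel pa.ne_zero pb.ne_zero pc.ne_zero hrel b
  have e3 := val_rel pa.ne_zero pb.ne_zero pc.ne_zero hrel c
  rw [padicValNat_self, z0 pa pb hab, z0 pa pc hac] at e1
  rw [padicValNat_self, z0 pb pa hab.symm, z0 pb pc hbc] at e2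
  rw [padicValNat_self, z0 pc pa hac.symm, z0 pc pb hbc.symm] at e3
  simp at e1 e2 e3
  omega

end Pool.Agent.N886.SE
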