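import Pool.Agent.N886.SE.Bd

/-!
# A uniform six exponentials theorem for rational numbers
-/

set_option autoImplicit false

namespace Pool.Agent.N886.SE

open Finset

/-- different natural numbers have distant logarithms -/
theorem log_sub_log_ge {P Q : ℕ} (hP : 1 ≤ P) (hQ : 1 ≤ Q) (hne : P ≠ Q) {E : ℝ} (hPE : (P : ℝ) ≤ E)
    (hQE : (Q : ℝ) ≤ E) : E⁻¹ ≤ |Real.log P - Real.log Q| := by
  have key : ∀ {P Q : ℕ}, 1 ≤ P → 1 ≤ Q → Q < P → (P : ℝ) ≤ E → E⁻¹ ≤ Real.log P - Real.log Q := by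
    intro P Q hP hQ hlt hPE
    have hP0 : (0 : ℝ) < P := by exact_mod_cast hP
    have hQ0 : (0 : ℝ) < Q := by exact_mod_cast hQ
    have h1 : (1 : ℝ) - ((P : ℝ) / Q)⁻¹ ≤ Real.log ((P : ℝ) / Q) := Real.one_sub_inv_le_log_of_pos (by positivity)
    rw [Real.log_div hP0.ne' hQ0.ne'] at h1
    refine le_trans ?_ h1
    have h2 : (1 : ℝ) - ((P : ℝ) / Q)⁻¹ = ((P : ℝ) - Q) / P := by
      field_simp
    rw [h2]
    have h3 : (1 : ℝ) ≤ P - Q := by
      have : (Q : ℝ) + 1 ≤ P := by exact_mod_cast hlt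
      linarith
    calc E⁻¹ ≤ (P : ℝ)⁻¹ := inv_anti₀ hP0 hPE
      _ = 1 / P := (one_div _).symm
      _ ≤ _ := div_le_div_of_nonneg_right h3 hP0.le
  rcases lt_or_gt_of_ne hne with h | h
  · rw [abs_sub_comm]
    exact (key hQ hP h hQE).trans (le_abs_self _)
  · exact (key hP hQ h hPE).trans (le_abs_self _)

theorem log_rat {u : ℚ} (hu : 0 < u) : Real.log (u : ℝ) = Real.log (u.num.toNat : ℝ) - Real.log (u.den : ℝ) := by
  have h1 : (0 : ℤ) < u.num := Rat.num_pos.2 hu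
  have h2 : ((u.num.toNat : ℕ) : ℝ) = (u.num : ℝ) := by
    have : ((u.num.toNat : ℕ) : ℤ) = u.num := Int.toNat_of_nonneg h1.le
    exact_mod_cast congrArg (fun z : ℤ => (z : ℝ)) this
  have h3 : (u : ℝ) = (u.num : ℝ) / (u.den : ℝ) := by
    exact_mod_cast (Rat.num_div_den u).symm
  rw [h3, h2, Real.log_div]
  · exact_mod_cast h1.ne'
  · exact_mod_cast u.den_nz

/-- the size of a nonzero linear form in the logarithms of rational numbers -/
theorem form_ge {L : ℝ} (u : Fin 3 → ℚ) (hu : ∀ m, 0 < u m)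
    (hun : ∀ m, ((u m).num : ℝ) ≤ Real.exp L) (hud : ∀ m, ((u m).den : ℝ) ≤ Real.exp L) (S : ℕ)
    (d : Fin 3 → ℤ) (hd : ∀ m, |d m| ≤ S) (hne : ∑ m, (d m : ℝ) * Real.log (u m) ≠ 0) (hL : 0 ≤ L) :
    Real.exp (-(3 * S * L)) ≤ |∑ m, (d m : ℝ) * Real.log (u m)| := by
  set N : Fin 3 → ℕ := fun m => (u m).num.toNat with hN
  set D : Fin 3 → ℕ := fun m => (u m).den with hD
  have hN1 : ∀ m, 1 ≤ N m := fun m => by
    have h1 : (0 : ℤ) < (u m).num := Rat.num_pos.2 (hu m)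
    simp only [hN]
    omega
  have hD1 : ∀ m, 1 ≤ D m := fun m => (u m).den_pos
  have hNL : ∀ m, (N m : ℝ) ≤ Real.exp L := fun m => by
    have h1 : (0 : ℤ) < (u m).num := Rat.num_pos.2 (hu m)
    have : ((N m : ℕ) : ℤ) = (u m).num := Int.toNat_of_nonneg h1.le
    have h2 : ((N m : ℕ) : ℝ) = ((u m).num : ℝ) := by exact_mod_cast congrArg (fun z : ℤ => (z : ℝ)) this
    rw [h2]; exact hun m
  set P : ℕ := ∏ m, (N m ^ (d m).toNat * D m ^ (-(d m)).toNat) with hP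
  set Q : ℕ := ∏ m, (D m ^ (d m).toNat * N m ^ (-(d m)).toNat) with hQ
  have hN0 : ∀ m, (N m : ℝ) ≠ 0 := fun m => Nat.cast_ne_zero.2 (by have := hN1 m; omega)
  have hD0 : ∀ m, (D m : ℝ) ≠ 0 := fun m => Nat.cast_ne_zero.2 (by have := hD1 m; omega)
  have hdd : ∀ m, (((d m).toNat : ℕ) : ℝ) - (((-(d m)).toNat : ℕ) : ℝ) = d m := fun m => by
    have : (((d m).toNat : ℕ) : ℤ) - (((-(d m)).toNat : ℕ) : ℤ) = d m := by omega
    exact_mod_cast congrArg (fun z : ℤ => (z : ℝ)) this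
  have hds : ∀ m, (((d m).toNat : ℕ) : ℝ) + (((-(d m)).toNat : ℕ) : ℝ) ≤ S := fun m => by
    have h1 := hd m
    have : (d m).toNat + (-(d m)).toNat ≤ S := by
      rw [abs_le] at h1
      omega
    exact_mod_cast this
  have hlog : Real.log P - Real.log Q = ∑ m, (d m : ℝ) * Real.log (u m) := by
    rw [hP, hQ]
    push_cast
    rw [Real.log_prod (fun m _ => mul_ne_zero (pow_ne_zero _ (hN0 m)) (pow_ne_zero _ (hD0 m))),
      Real.log_prod (fun m _ => mul_ne_zero (pow_ne_zero _ (hD0 m)) (pow_ne_zero _ (hN0 m))),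
      ← sum_sub_distrib]
    refine sum_congr rfl fun m _ => ?_
    rw [Real.log_mul (pow_ne_zero _ (hN0 m)) (pow_ne_zero _ (hD0 m)),
      Real.log_mul (pow_ne_zero _ (hD0 m)) (pow_ne_zero _ (hN0 m)), Real.log_pow, Real.log_pow,
      Real.log_pow, Real.log_pow, log_rat (hu m), ← hdd m]
    ring
  have hPQ : P ≠ Q := by
    intro h
    apply hne
    rw [← hlog, h, sub_self]
  have hPpos : 1 ≤ P := Nat.one_le_iff_ne_zero.2 (prod_ne_zero_iff.2 fun m _ =>
    mul_ne_zero (pow_ne_zero _ (by have := hN1 m; omega)) (pow_ne_zero _ (by have := hD1 m; omega)))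
  have hQpos : 1 ≤ Q := Nat.one_le_iff_ne_zero.2 (prod_ne_zero_iff.2 fun m _ =>
    mul_ne_zero (pow_ne_zero _ (by have := hD1 m; omega)) (pow_ne_zero _ (by have := hN1 m; omega)))
  have hbd : ∀ (x y : Fin 3 → ℕ), (∀ m, (x m : ℝ) ≤ Real.exp L) → (∀ m, (y m : ℝ) ≤ Real.exp L) →
      ((∏ m, (x m ^ (d m).toNat * y m ^ (-(d m)).toNat) : ℕ) : ℝ) ≤ Real.exp (3 * S * L) := by
    intro x y hx hy
    push_cast
    calc ∏ m, ((x m : ℝ) ^ (d m).toNat * (y m : ℝ) ^ (-(d m)).toNat)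
        ≤ ∏ _m : Fin 3, Real.exp (S * L) := by
          refine prod_le_prod (fun m _ => by positivity) fun m _ => ?_
          calc (x m : ℝ) ^ (d m).toNat * (y m : ℝ) ^ (-(d m)).toNat
              ≤ Real.exp L ^ (d m).toNat * Real.exp L ^ (-(d m)).toNat :=
                mul_le_mul (pow_le_pow_left₀ (by positivity) (hx m) _)
                  (pow_le_pow_left₀ (by positivity) (hy m) _) (by positivity) (by positivity)
            _ = Real.exp ((((d m).toNat : ℕ) + ((-(d m)).toNat : ℕ) : ℝ) * L) := by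
                rw [← Real.exp_nat_mul, ← Real.exp_nat_mul, ← Real.exp_add]
                congr 1
                ring
            _ ≤ _ := Real.exp_le_exp.2 (mul_le_mul_of_nonneg_right (hds m) hL)
      _ = _ := by
          rw [prod_const, card_univ, Fintype.card_fin, ← Real.exp_nat_mul]
          congr 1
          push_cast
          ring
  have h1 := log_sub_log_ge hPpos hQpos hPQ (hbd N D hNL hud) (hbd D N hud hNL)
  rw [hlog, ← Real.exp_neg] at h1
  exact h1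

/-- the numerical inequality -/
theorem num_ineq {x A W Z G : ℝ} (hx : 666 ≤ x) (hA : 0 ≤ A) (hWZ : 222 * (Z * W) ≤ x ^ 6)
    (hG : G ≤ x ^ 3 / 222) (hWZ0 : 0 ≤ Z * W) :
    x ^ 6 * Real.log (x ^ 6) + (Real.log (x ^ 6) + (x ^ 6 * (W * Z + 1) + (W * Z + (6 * x ^ 5 +
      (1 + (x ^ 6 * (Z * W) + (A + G + Real.log (x ^ 6)) * (x ^ 6) ^ 2 / 2)))))) ≤ x ^ 12 * (A + x ^ 3) := by
  have hx0 : 0 < x := by linarith
  have hlog : Real.log (x ^ 6) ≤ 6 * x := by
    rw [Real.log_pow]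
    have := Real.log_le_sub_one_of_pos hx0
    push_cast
    linarith
  set n := x ^ 6 with hn
  have hn1 : 666 ≤ n := by
    calc (666 : ℝ) ≤ x := hx
      _ ≤ x ^ 6 := le_self_pow₀ (by linarith) (by norm_num)
  have hx2 : 443556 ≤ x ^ 2 := by nlinarith
  have hx3 : x ^ 3 = x * x ^ 2 := by ring
  have e12 : x ^ 12 = n ^ 2 := by rw [hn]; ring
  have h5 : 6 * x ^ 5 ≤ n := by
    rw [hn]
    have : x ^ 6 = x * x ^ 5 := by ring
    have h : 0 < x ^ 5 := by positivity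
    nlinarith
  have hWZ' : W * Z = Z * W := mul_comm _ _
  rw [hWZ', e12]
  have hcube : 295408296 ≤ x ^ 3 := by
    rw [hx3]
    nlinarith
  have hn2 : 0 < n ^ 2 := by positivity
  have g1 : n * Real.log n ≤ n * (6 * x) := mul_le_mul_of_nonneg_left hlog (by linarith)
  have g2 : (A + G + Real.log n) * n ^ 2 / 2 ≤ (A + x ^ 3 / 222 + 6 * x) * n ^ 2 / 2 := by
    have : (A + G + Real.log n) ≤ (A + x ^ 3 / 222 + 6 * x) := by linarith
    have := mul_le_mul_of_nonneg_right this hn2.le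
    linarith
  have g3 : n * (Z * W) ≤ n * (n / 222) := mul_le_mul_of_nonneg_left (by linarith) (by linarith)
  have g4 : n * (Z * W + 1) ≤ n * (n / 222) + n := by nlinarith
  have g5 : 6 * x ≤ x ^ 3 / 1000 := by
    rw [hx3]
    nlinarith
  have g6 : n ≤ n ^ 2 / 666 := by nlinarith
  have g7 : n * (6 * x) ≤ n ^ 2 * (x ^ 3 / 1000) := by
    calc n * (6 * x) ≤ n * (x ^ 3 / 1000) := mul_le_mul_of_nonneg_left g5 (by linarith)
      _ ≤ n ^ 2 * (x ^ 3 / 1000) := by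
          refine mul_le_mul_of_nonneg_right ?_ (by positivity)
          nlinarith
  have g8 : Real.log n ≤ n ^ 2 * (x ^ 3 / 1000) := by
    refine (hlog.trans g5).trans ?_
    have : (1 : ℝ) ≤ n ^ 2 := by nlinarith
    nlinarith
  have g9 : (0 : ℝ) ≤ A * n ^ 2 := by positivity
  have g10 : n ^ 2 * 1000 ≤ n ^ 2 * x ^ 3 := mul_le_mul_of_nonneg_left (by linarith) hn2.le
  nlinarith

end Pool.Agent.N886.SE
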