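import Pool.Agent.N886.SE.Six
import Pool.Agent.N886.SE.Cnt

/-!
# Powers of integers which are close to rational numbers
-/

set_option autoImplicit false

namespace Pool.Agent.N886.SE

open Finset

/-- from a relation between the logarithms to a multiplicative relation -/
theorem rel_of_log {a b c : ℕ} (ha : 1 ≤ a) (hb : 1 ≤ b) (hc : 1 ≤ c) (d : Fin 3 → ℤ) (hd : d ≠ 0)
    (h : ∑ m, (d m : ℝ) * Real.log ((![(a : ℚ), (b : ℚ), (c : ℚ)] m : ℚ) : ℝ) = 0) :
    ∃ x y z : ℤ, (x ≠ 0 ∨ y ≠ 0 ∨ z ≠ 0) ∧ (a : ℚ) ^ x * (b : ℚ) ^ y * (c : ℚ) ^ z = 1 := by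
  refine ⟨d 0, d 1, d 2, ?_, ?_⟩
  · by_contra hcon
    push Not at hcon
    apply hd
    funext m
    fin_cases m
    · exact hcon.1
    · exact hcon.2.1
    · exact hcon.2.2
  · rw [Fin.sum_univ_three] at h
    have ha0 : (0 : ℝ) < a := by exact_mod_cast ha
    have hb0 : (0 : ℝ) < b := by exact_mod_cast hb
    have hc0 : (0 : ℝ) < c := by exact_mod_cast hc
    have h : (d 0 : ℝ) * Real.log a + (d 1 : ℝ) * Real.log b + (d 2 : ℝ) * Real.log c = 0 := by
      simpa using h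
    have h2 : ((a : ℝ) ^ (d 0) * (b : ℝ) ^ (d 1) * (c : ℝ) ^ (d 2)) = 1 := by
      have hpos : 0 < ((a : ℝ) ^ (d 0) * (b : ℝ) ^ (d 1) * (c : ℝ) ^ (d 2)) := by positivity
      rw [← Real.exp_log hpos, Real.log_mul (by positivity) (by positivity),
        Real.log_mul (by positivity) (by positivity), Real.log_zpow, Real.log_zpow, Real.log_zpow, h,
        Real.exp_zero]
    have h3 : (((a : ℚ) ^ (d 0) * (b : ℚ) ^ (d 1) * (c : ℚ) ^ (d 2) : ℚ) : ℝ) = 1 := by
      push_cast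
      exact h2
    exact_mod_cast h3

/-- the logarithms of close positive numbers -/
theorem log_close {x y ε : ℝ} (hx : 1 ≤ x) (hε : ε ≤ 1 / 2) (h : |x - y| ≤ ε) :
    0 < y ∧ |Real.log y - Real.log x| ≤ 2 * ε := by
  obtain ⟨h1, h2⟩ := abs_le.1 h
  have hy : 1 / 2 ≤ y := by linarith
  have hy0 : 0 < y := by linarith
  have hx0 : 0 < x := by linarith
  refine ⟨hy0, ?_⟩
  have e1 : Real.log y - Real.log x ≤ 2 * ε := by
    rw [← Real.log_div hy0.ne' hx0.ne']
    refine (Real.log_le_sub_one_of_pos (by positivity)).trans ?_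
    have : y / x - 1 = (y - x) / x := by field_simp
    rw [this, div_le_iff₀ hx0]
    nlinarith
  have e2 : Real.log x - Real.log y ≤ 2 * ε := by
    rw [← Real.log_div hx0.ne' hy0.ne']
    refine (Real.log_le_sub_one_of_pos (by positivity)).trans ?_
    have : x / y - 1 = (x - y) / y := by field_simp
    rw [this, div_le_iff₀ hy0]
    nlinarith
  rw [abs_le]
  constructor <;> linarith

/-- the choice of the parameter -/
theorem exists_R {θ : ℝ} (hθ : 0 ≤ θ) {H : ℕ} (hH : 2 ≤ H) :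
    ∃ (R : ℕ) (L : ℝ), 1 ≤ L ∧ 666 * ((1 + θ) * L) ≤ R ∧ (H : ℝ) ≤ Real.exp L ∧
      (R : ℝ) ≤ 1001 * (1 + θ) * Real.log H := by
  have hHR : (2 : ℝ) ≤ H := by exact_mod_cast hH
  have hlog2 : 0.6931471803 < Real.log 2 := Real.log_two_gt_d9
  have hlogH : 0.6931471803 < Real.log H := hlog2.trans_le (Real.log_le_log (by norm_num) hHR)
  set L : ℝ := 1.45 * Real.log H with hL
  have hL1 : 1 ≤ L := by
    rw [hL]
    nlinarith
  refine ⟨⌈666 * ((1 + θ) * L)⌉₊, L, hL1, Nat.le_ceil _, ?_, ?_⟩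
  · have h1 : Real.log H ≤ L := by rw [hL]; nlinarith
    calc (H : ℝ) = Real.exp (Real.log H) := (Real.exp_log (by linarith)).symm
      _ ≤ _ := Real.exp_le_exp.2 h1
  · have h1 : ((⌈666 * ((1 + θ) * L)⌉₊ : ℕ) : ℝ) ≤ 666 * ((1 + θ) * L) + 1 :=
      (Nat.ceil_lt_add_one (by positivity)).le
    refine h1.trans ?_
    rw [hL]
    nlinarith [mul_nonneg hθ (by linarith : (0 : ℝ) ≤ Real.log H)]

/-- `n ^ θ` is within `ε` of a rational number with denominator at most `H` -/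
def Close (θ ε : ℝ) (H n : ℕ) : Prop := ∃ (p : ℤ) (q : ℕ), 1 ≤ q ∧ q ≤ H ∧ |(n : ℝ) ^ θ - p / q| ≤ ε

/-- **Three integers.** -/
theorem three {θ κ : ℝ} (hθ : 0 < θ) (hκ : 0 ≤ κ)
    (hmeas : ∀ q : ℕ, 1 ≤ q → ∀ p : ℤ, Real.exp (-(κ * q)) ≤ |q * θ - p|) {C : ℝ}
    (hC : (κ + 2) * (1001 * (1 + θ)) ^ 15 ≤ C) {H : ℕ} (hH : 2 ≤ H) {a b c : ℕ} (ha : 2 ≤ a) (hb : 2 ≤ b)
    (hc : 2 ≤ c) (ha' : a ≤ H) (hb' : b ≤ H) (hc' : c ≤ H)
    (Ca : Close θ (Real.exp (-(C * Real.log H ^ 15))) H a)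
    (Cb : Close θ (Real.exp (-(C * Real.log H ^ 15))) H b)
    (Cc : Close θ (Real.exp (-(C * Real.log H ^ 15))) H c) :
    ∃ x y z : ℤ, (x ≠ 0 ∨ y ≠ 0 ∨ z ≠ 0) ∧ (a : ℚ) ^ x * (b : ℚ) ^ y * (c : ℚ) ^ z = 1 := by
  by_contra hcon
  obtain ⟨R, L, hL1, hRL, hHL, hRH⟩ := exists_R hθ.le hH
  have hR666 : (666 : ℝ) ≤ R := by nlinarith
  have hlogH : 0 < Real.log H := Real.log_pos (by exact_mod_cast hH)
  set ε : ℝ := Real.exp (-(C * Real.log H ^ 15)) with hε
  have hR15 : (R : ℝ) ^ 15 ≤ (1001 * (1 + θ)) ^ 15 * Real.log H ^ 15 := by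
    rw [← mul_pow]
    exact pow_le_pow_left₀ (by positivity) hRH _
  have hCle : (κ + 2) * (R : ℝ) ^ 15 ≤ C * Real.log H ^ 15 := by
    calc (κ + 2) * (R : ℝ) ^ 15 ≤ (κ + 2) * ((1001 * (1 + θ)) ^ 15 * Real.log H ^ 15) :=
          mul_le_mul_of_nonneg_left hR15 (by linarith)
      _ = ((κ + 2) * (1001 * (1 + θ)) ^ 15) * Real.log H ^ 15 := by ring
      _ ≤ _ := mul_le_mul_of_nonneg_right hC (by positivity)
  have hR1 : (1 : ℝ) ≤ (R : ℝ) ^ 15 := one_le_pow₀ (by linarith)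
  have h2exp : (2 : ℝ) ≤ Real.exp 1 := by
    have := Real.add_one_le_exp (1 : ℝ)
    linarith
  have hε2 : 2 * ε ≤ Real.exp (-((R : ℝ) ^ 12 * (κ * R ^ 3 + (R : ℝ) ^ 3))) := by
    calc 2 * ε ≤ Real.exp 1 * ε := mul_le_mul_of_nonneg_right h2exp (Real.exp_pos _).le
      _ = Real.exp (1 + -(C * Real.log H ^ 15)) := (Real.exp_add _ _).symm
      _ ≤ _ := by
          refine Real.exp_le_exp.2 ?_
          have : (R : ℝ) ^ 12 * (κ * R ^ 3 + (R : ℝ) ^ 3) = (κ + 1) * R ^ 15 := by ring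
          rw [this]
          linarith
  have hεhalf : ε ≤ 1 / 2 := by
    have h1 : 2 * ε ≤ 1 := hε2.trans (by
      rw [Real.exp_le_one_iff]
      have : 0 ≤ (R : ℝ) ^ 12 * (κ * R ^ 3 + (R : ℝ) ^ 3) := by positivity
      linarith)
    linarith
  set n : Fin 3 → ℕ := ![a, b, c] with hn
  have hn2 : ∀ m, 2 ≤ n m := by
    intro m
    fin_cases m
    · exact ha
    · exact hb
    · exact hc
  have hnH : ∀ m, n m ≤ H := by
    intro m
    fin_cases m
    · exact ha'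
    · exact hb'
    · exact hc'
  have hclose : ∀ m, Close θ ε H (n m) := by
    intro m
    fin_cases m
    · exact Ca
    · exact Cb
    · exact Cc
  choose p q hq1 hqH hpq using hclose
  set u : Fin 3 → ℚ := fun m => (n m : ℚ) with hu
  set r : Fin 3 → ℚ := fun m => (p m : ℚ) / (q m : ℚ) with hr
  have hur : ∀ m, ((u m : ℚ) : ℝ) = n m := fun m => by simp [hu]
  have hrr : ∀ m, ((r m : ℚ) : ℝ) = p m / q m := fun m => by simp [hr]
  have hpow : ∀ m, 1 ≤ (n m : ℝ) ^ θ := fun m =>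
    Real.one_le_rpow (by exact_mod_cast (by have := hn2 m; omega : 1 ≤ n m)) hθ.le
  have hlc : ∀ m, 0 < (p m : ℝ) / q m ∧ |Real.log ((p m : ℝ) / q m) - Real.log ((n m : ℝ) ^ θ)| ≤ 2 * ε :=
    fun m => log_close (hpow m) hεhalf (hpq m)
  have hrpos : ∀ m, 0 < r m := fun m => by
    have := (hlc m).1
    rw [← hrr m] at this
    exact_mod_cast this
  have hres := core R θ L (κ * R ^ 3) hθ.le hL1 hRL (by positivity) u r
    (fun m => by
      simp only [hu]
      have := hn2 m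
      exact_mod_cast (by omega : 0 < n m)) hrpos
    (fun m => by
      have h1 : (u m).num = (n m : ℤ) := by simp [hu]
      rw [h1]
      have : ((n m : ℤ) : ℝ) ≤ H := by exact_mod_cast hnH m
      exact this.trans hHL)
    (fun m => by
      have h1 : (u m).den = 1 := by simp [hu]
      rw [h1]
      have := Real.one_le_exp (by linarith : 0 ≤ L)
      simpa using this)
    (fun m => by
      have h1 : ((r m).den : ℤ) ∣ (q m : ℤ) := by
        have e : r m = Rat.divInt (p m) (q m) := by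
          simp only [hr]
          rw [Rat.divInt_eq_div]
          push_cast
          rfl
        rw [e]
        exact Rat.den_dvd (p m) (q m)
      have h2 : (r m).den ≤ q m := Nat.le_of_dvd (hq1 m) (by exact_mod_cast h1)
      have h3 : ((r m).den : ℝ) ≤ H := by exact_mod_cast h2.trans (hqH m)
      exact h3.trans hHL)
    (fun d hd _ h0 => by
      apply hcon
      refine rel_of_log (by omega) (by omega) (by omega) d hd ?_
      rw [← h0]
      refine sum_congr rfl fun m _ => ?_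
      congr 3
      fin_cases m <;> simp [hu, hn])
    (fun m => by
      rw [hrr m, hur m]
      have h1 := (hlc m).2
      rw [Real.log_rpow (by have := hn2 m; exact_mod_cast (by omega : 0 < n m))] at h1
      exact h1.trans hε2)
  obtain ⟨x, y, hxy, hx, hy, hlt⟩ := hres
  have hRpos : (0 : ℝ) ≤ κ * R ^ 3 := by positivity
  by_cases hy0 : y = 0
  · have hx0 : x ≠ 0 := hxy.resolve_right (fun h => h hy0)
    rw [hy0, Int.cast_zero, zero_mul, add_zero] at hlt
    have h1 : (1 : ℝ) ≤ |(x : ℝ)| := by exact_mod_cast Int.one_le_abs hx0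
    have h2 : Real.exp (-(κ * (R : ℝ) ^ 3)) ≤ 1 := Real.exp_le_one_iff.2 (by linarith)
    linarith
  · have hya : 1 ≤ y.natAbs := Int.natAbs_pos.2 hy0
    have hyR : (y.natAbs : ℝ) ≤ (R : ℝ) ^ 3 := by
      have h1 : (y.natAbs : ℤ) ≤ (R : ℤ) ^ 3 := by
        rw [Int.natCast_natAbs]
        exact hy.le
      exact_mod_cast h1
    have h1 := hmeas y.natAbs hya (-(x * y.sign))
    have h2 : |(y.natAbs : ℝ) * θ - ((-(x * y.sign) : ℤ) : ℝ)| = |(x : ℝ) + y * θ| := by
      have hs : (y.natAbs : ℝ) = (y.sign : ℝ) * y := by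
        have := Int.sign_mul_self_eq_natAbs y
        have h5 : ((y.natAbs : ℕ) : ℝ) = (((y.natAbs : ℕ) : ℤ) : ℝ) := (Int.cast_natCast _).symm
        rw [h5, ← this, Int.cast_mul]
      rw [hs]
      push_cast
      have hsq : |((y.sign : ℤ) : ℝ)| = 1 := by
        rcases lt_or_gt_of_ne hy0 with h | h
        · rw [Int.sign_eq_neg_one_of_neg h]; simp
        · rw [Int.sign_eq_one_of_pos h]; simp
      have e : (y.sign : ℝ) * y * θ - -(x * (y.sign : ℝ)) = (y.sign : ℝ) * (x + y * θ) := by ring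
      rw [e, abs_mul, hsq, one_mul]
    rw [h2] at h1
    have h3 : Real.exp (-(κ * (R : ℝ) ^ 3)) ≤ Real.exp (-(κ * (y.natAbs : ℝ))) :=
      Real.exp_le_exp.2 (by
        have := mul_le_mul_of_nonneg_left hyR hκ
        linarith)
    linarith

end Pool.Agent.N886.SE
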