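import Pool.Agent.N886.SE.Six
import Pool.Agent.N886.SE.Cnt

/-!
# Nearly singular matrices of logarithms of rational numbers
-/

set_option autoImplicit false

namespace Pool.Agent.N886.SE

open Finset

/-- a crude comparison -/
theorem tiny {R : ℕ} {L k e : ℝ} (hR : 666 ≤ (R : ℝ)) (hL : 0 ≤ L) (hLR : 1332 * L ≤ R) (hk0 : 0 ≤ k)
    (hk : k ≤ 3 * (R : ℝ) ^ 3) (he : e ≤ Real.exp (-(2 * (R : ℝ) ^ 16))) :
    k * e < Real.exp (-(3 * (R : ℝ) ^ 3 * L)) := by
  set x : ℝ := (R : ℝ) with hx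
  have hx1 : 1 ≤ x := by linarith
  have h1 : k ≤ Real.exp (3 * x ^ 3) := by
    have := Real.add_one_le_exp (3 * x ^ 3)
    linarith
  have h2 : 3 * x ^ 3 + 3 * x ^ 3 * L < 2 * x ^ 16 := by
    have hLx : L ≤ x := by linarith
    have h3 : 3 * x ^ 3 * L ≤ 3 * x ^ 3 * x := mul_le_mul_of_nonneg_left hLx (by positivity)
    have h4 : x ^ 4 = x ^ 3 * x := by ring
    have h5 : x ^ 16 = x ^ 4 * x ^ 12 := by ring
    have h6 : (666 : ℝ) ≤ x ^ 12 := by
      calc (666 : ℝ) ≤ x := hR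
        _ ≤ x ^ 12 := le_self_pow₀ hx1 (by norm_num)
    have h7 : x ^ 4 * 666 ≤ x ^ 16 := by
      rw [h5]
      exact mul_le_mul_of_nonneg_left h6 (by positivity)
    have h8 : x ^ 3 ≤ x ^ 4 := pow_le_pow_right₀ hx1 (by norm_num)
    have h9 : 0 < x ^ 4 := by positivity
    nlinarith
  calc k * e ≤ Real.exp (3 * x ^ 3) * Real.exp (-(2 * x ^ 16)) := by
        refine (mul_le_mul_of_nonneg_left he hk0).trans ?_
        exact mul_le_mul_of_nonneg_right h1 (Real.exp_pos _).le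
    _ = Real.exp (3 * x ^ 3 + -(2 * x ^ 16)) := (Real.exp_add _ _).symm
    _ < _ := Real.exp_lt_exp.2 (by linarith)

/-- **Proportional rows.** -/
theorem aux (R : ℕ) (L : ℝ) (hL : 1 ≤ L) (hR : 1332 * L ≤ R) (u r : Fin 3 → ℚ)
    (hu : ∀ m, 0 < u m) (hr : ∀ m, 0 < r m)
    (hun : ∀ m, ((u m).num : ℝ) ≤ Real.exp L) (hud : ∀ m, ((u m).den : ℝ) ≤ Real.exp L)
    (hrn : ∀ m, ((r m).num : ℝ) ≤ Real.exp L) (hrd : ∀ m, ((r m).den : ℝ) ≤ Real.exp L)
    (θ : ℝ) (hθ0 : 0 ≤ θ) (hθ1 : θ ≤ 1) (hu0 : Real.log (u 0) ≠ 0) (hθ : Real.log (r 0) = θ * Real.log (u 0))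
    (hclose : ∀ m, |Real.log (r m) - θ * Real.log (u m)| ≤ Real.exp (-(2 * (R : ℝ) ^ 16))) :
    (∃ d : Fin 3 → ℤ, d ≠ 0 ∧ ∑ m, (d m : ℝ) * Real.log (u m) = 0 ∧ ∑ m, (d m : ℝ) * Real.log (r m) = 0) ∨
    ∃ x y : ℤ, (x ≠ 0 ∨ y ≠ 0) ∧ ∀ m, (x : ℝ) * Real.log (u m) + y * Real.log (r m) = 0 := by
  rw [or_iff_not_imp_left]
  intro hno
  have hL0 : 0 ≤ L := by linarith
  have hR666 : (666 : ℝ) ≤ R := by linarith
  set x : ℝ := (R : ℝ) with hx
  have hx1 : 1 ≤ x := by linarith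
  have hE0 := Real.exp_pos (-(2 * x ^ 16))
  have hind : ∀ d : Fin 3 → ℤ, d ≠ 0 → (∀ m, |d m| < R ^ 2) → ∑ m, (d m : ℝ) * Real.log (u m) ≠ 0 := by
    intro d hd hdR h0
    have h1 : ∑ m, (d m : ℝ) * Real.log (r m) ≠ 0 := fun h => hno ⟨d, hd, h0, h⟩
    have h2 := form_ge r hr hrn hrd (R ^ 2) d (fun m => by
      have := hdR m
      push_cast
      exact this.le) h1 hL0
    have h3 : ∑ m, (d m : ℝ) * Real.log (r m) =
        ∑ m, (d m : ℝ) * (Real.log (r m) - θ * Real.log (u m)) := by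
      have : ∑ m, (d m : ℝ) * (Real.log (r m) - θ * Real.log (u m)) =
          ∑ m, (d m : ℝ) * Real.log (r m) - θ * ∑ m, (d m : ℝ) * Real.log (u m) := by
        rw [mul_sum, ← sum_sub_distrib]
        refine sum_congr rfl fun m _ => ?_
        ring
      rw [this, h0, mul_zero, sub_zero]
    have h4 : |∑ m, (d m : ℝ) * Real.log (r m)| ≤ 3 * x ^ 2 * Real.exp (-(2 * x ^ 16)) := by
      rw [h3]
      refine (abs_sum_le_sum_abs _ _).trans ?_
      have h5 : ∀ m ∈ univ, |(d m : ℝ) * (Real.log (r m) - θ * Real.log (u m))| ≤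
          x ^ 2 * Real.exp (-(2 * x ^ 16)) := by
        intro m _
        rw [abs_mul]
        refine mul_le_mul ?_ (hclose m) (abs_nonneg _) (by positivity)
        have : |d m| ≤ (R : ℤ) ^ 2 := (hdR m).le
        have h8 : ((|d m| : ℤ) : ℝ) ≤ (((R : ℤ) ^ 2 : ℤ) : ℝ) := Int.cast_le.2 this
        push_cast at h8
        exact h8
      refine (sum_le_sum h5).trans ?_
      rw [sum_const, card_univ, Fintype.card_fin, nsmul_eq_mul]
      push_cast
      linarith
    have h6 := tiny (R := R) (L := L) (k := 3 * x ^ 2) hR666 hL0 hR (by positivity)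
      (by
        have : x ^ 2 ≤ x ^ 3 := pow_le_pow_right₀ hx1 (by norm_num)
        linarith) (le_refl (Real.exp (-(2 * x ^ 16))))
    have h7 : Real.exp (-(3 * x ^ 3 * L)) ≤ Real.exp (-(3 * ((R ^ 2 : ℕ) : ℝ) * L)) := by
      refine Real.exp_le_exp.2 ?_
      push_cast
      have : x ^ 2 ≤ x ^ 3 := pow_le_pow_right₀ hx1 (by norm_num)
      have : 3 * x ^ 2 * L ≤ 3 * x ^ 3 * L := by
        refine mul_le_mul_of_nonneg_right ?_ hL0
        linarith
      linarith
    linarith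
  obtain ⟨a, b, hab, ha, hb, hlt⟩ := core R θ L (x ^ 4) hθ0 hL (by nlinarith) (by positivity) u r hu hr
    hun hud hrd hind (fun m => (hclose m).trans (Real.exp_le_exp.2 (by
      have e1 : x ^ 12 * (x ^ 4 + x ^ 3) = x ^ 16 + x ^ 15 := by ring
      have e2 : x ^ 15 ≤ x ^ 16 := pow_le_pow_right₀ hx1 (by norm_num)
      have e3 : (R : ℝ) ^ 12 * (x ^ 4 + (R : ℝ) ^ 3) = x ^ 12 * (x ^ 4 + x ^ 3) := rfl
      rw [e3, e1]
      linarith)))
  have haR : |(a : ℝ)| ≤ x ^ 3 := by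
    have h8 : ((|a| : ℤ) : ℝ) ≤ (((R : ℤ) ^ 3 : ℤ) : ℝ) := Int.cast_le.2 ha.le
    push_cast at h8
    exact h8
  have hbR : |(b : ℝ)| ≤ x ^ 3 := by
    have h8 : ((|b| : ℤ) : ℝ) ≤ (((R : ℤ) ^ 3 : ℤ) : ℝ) := Int.cast_le.2 hb.le
    push_cast at h8
    exact h8
  -- a relation with small coefficients between two numbers
  have two : ∀ m, |(a : ℝ) * Real.log (u m) + b * Real.log (r m)| < Real.exp (-(3 * x ^ 3 * L)) →
      (a : ℝ) * Real.log (u m) + b * Real.log (r m) = 0 := by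
    intro m hm
    by_contra hne
    have e0 : ∑ k, ((![a, b, 0] k : ℤ) : ℝ) * Real.log ((![u m, r m, 1] k : ℚ) : ℝ) =
        (a : ℝ) * Real.log (u m) + b * Real.log (r m) := by
      rw [Fin.sum_univ_three]
      simp
    have h1 := form_ge ![u m, r m, 1] (fun k => by
        fin_cases k
        · exact hu m
        · exact hr m
        · exact one_pos) (fun k => by
        fin_cases k
        · exact hun m
        · exact hrn m
        · simpa using Real.one_le_exp hL0) (fun k => by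
        fin_cases k
        · exact hud m
        · exact hrd m
        · simpa using Real.one_le_exp hL0) (R ^ 3) ![a, b, 0] (fun k => by
        push_cast
        fin_cases k
        · exact ha.le
        · exact hb.le
        · simp) (by rw [e0]; exact hne) hL0
    rw [e0] at h1
    push_cast at h1
    exact absurd hm (not_lt.2 h1)
  have hlu0 : |Real.log (u 0)| ≤ L := by
    have h1 := log_rat (hu 0)
    have h2 : (1 : ℝ) ≤ ((u 0).num.toNat : ℝ) := by
      have : (0 : ℤ) < (u 0).num := Rat.num_pos.2 (hu 0)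
      have h3 : 1 ≤ (u 0).num.toNat := by omega
      exact_mod_cast h3
    have h3 : (1 : ℝ) ≤ ((u 0).den : ℝ) := by exact_mod_cast (u 0).den_pos
    have h4 : ((u 0).num.toNat : ℝ) ≤ Real.exp L := by
      have h5 : (0 : ℤ) < (u 0).num := Rat.num_pos.2 (hu 0)
      have : (((u 0).num.toNat : ℕ) : ℤ) = (u 0).num := Int.toNat_of_nonneg h5.le
      have h6 : (((u 0).num.toNat : ℕ) : ℝ) = ((u 0).num : ℝ) := by
        exact_mod_cast congrArg (fun z : ℤ => (z : ℝ)) this
      rw [h6]; exact hun 0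
    have h5 : Real.log ((u 0).num.toNat : ℝ) ≤ L := (Real.log_le_iff_le_exp (by linarith)).2 h4
    have h6 : Real.log ((u 0).den : ℝ) ≤ L := (Real.log_le_iff_le_exp (by linarith)).2 (hud 0)
    have h7 := Real.log_nonneg h2
    have h8 := Real.log_nonneg h3
    rw [h1, abs_le]
    constructor <;> linarith
  have h0 : (a : ℝ) * Real.log (u 0) + b * Real.log (r 0) = 0 := by
    refine two 0 ?_
    have e1 : (a : ℝ) * Real.log (u 0) + b * Real.log (r 0) = (a + b * θ) * Real.log (u 0) := by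
      rw [hθ]; ring
    rw [e1, abs_mul]
    calc |(a : ℝ) + b * θ| * |Real.log (u 0)| ≤ Real.exp (-(x ^ 4)) * L :=
          mul_le_mul hlt.le hlu0 (abs_nonneg _) (Real.exp_pos _).le
      _ ≤ Real.exp (-(x ^ 4)) * Real.exp L := by
          refine mul_le_mul_of_nonneg_left ?_ (Real.exp_pos _).le
          have := Real.add_one_le_exp L
          linarith
      _ = Real.exp (-(x ^ 4) + L) := (Real.exp_add _ _).symm
      _ < _ := Real.exp_lt_exp.2 (by
          have hx3 : 0 < x ^ 3 := by positivity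
          have e4 : x ^ 4 = x ^ 3 * x := by ring
          have e5 : x ^ 3 * (1332 * L) ≤ x ^ 3 * x := mul_le_mul_of_nonneg_left hR hx3.le
          have e6 : (1 : ℝ) ≤ x ^ 3 := one_le_pow₀ hx1
          nlinarith [mul_nonneg hx3.le hL0])
  have hθab : (a : ℝ) + b * θ = 0 := by
    have e1 : ((a : ℝ) + b * θ) * Real.log (u 0) = 0 := by
      rw [hθ] at h0
      linarith
    exact (mul_eq_zero.1 e1).resolve_right hu0
  refine ⟨a, b, hab, fun m => two m ?_⟩
  have e1 : (a : ℝ) * Real.log (u m) + b * Real.log (r m) = b * (Real.log (r m) - θ * Real.log (u m)) := by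
    have : (a : ℝ) = -(b * θ) := by linarith
    rw [this]
    ring
  rw [e1, abs_mul]
  refine lt_of_le_of_lt (mul_le_mul_of_nonneg_left (hclose m) (abs_nonneg _)) ?_
  exact tiny hR666 hL0 hR (abs_nonneg _) (hbR.trans (by
    have : 0 ≤ x ^ 3 := by positivity
    linarith)) le_rfl

end Pool.Agent.N886.SE
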