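import Mathlib

/-!
# Determinants of exponentials with real frequencies at real points: a two-sided estimate
-/

set_option autoImplicit false

namespace Pool.Agent.N886.SE

open Finset MeasureTheory Matrix

/-- the box of the points which interlace with `z` -/
def ibox {n : ℕ} (z : Fin (n + 1) → ℝ) : Set (Fin n → ℝ) :=
  Set.univ.pi fun j : Fin n => Set.Ioc (z j.castSucc) (z j.succ)

theorem integrableOn_ibox {n : ℕ} (z : Fin (n + 1) → ℝ) {F : (Fin n → ℝ) → ℝ} (hF : Continuous F) :
    IntegrableOn F (ibox z) := by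
  have hK : IsCompact (Set.univ.pi fun j : Fin n => Set.Icc (z j.castSucc) (z j.succ)) :=
    isCompact_univ_pi fun j => isCompact_Icc
  refine (hF.continuousOn.integrableOn_compact hK).mono_set ?_
  exact Set.pi_mono fun j _ => Set.Ioc_subset_Icc_self

/-- column reduction -/
theorem det_succ_eq {n : ℕ} (f : Fin (n + 1) → ℝ → ℝ) (hf0 : ∀ t, f 0 t = 1) (z : Fin (n + 1) → ℝ) :
    Matrix.det (Matrix.of fun i j => f i (z j)) =
      Matrix.det (Matrix.of fun i j : Fin n => f i.succ (z j.succ) - f i.succ (z j.castSucc)) := by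
  set B : Matrix (Fin (n + 1)) (Fin (n + 1)) ℝ := Matrix.of fun i j =>
    Fin.cases (motive := fun _ => ℝ) (f i (z 0)) (fun k : Fin n => f i (z k.succ) - f i (z k.castSucc)) j with hB
  have h1 : Matrix.det (Matrix.of fun i j => f i (z j)) = B.det := by
    refine Matrix.det_eq_of_forall_col_eq_smul_add_pred (fun _ => 1) (fun i => ?_) (fun i j => ?_)
    · simp [hB]
    · simp [hB]
  rw [h1, Matrix.det_succ_row_zero, Fin.sum_univ_succ]
  have h2 : ∀ j : Fin n, B 0 j.succ = 0 := by
    intro j
    simp [hB, hf0]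
  have h3 : B 0 0 = 1 := by simp [hB, hf0]
  simp only [h2, h3, mul_zero, zero_mul, Finset.sum_const_zero, add_zero, Fin.val_zero, pow_zero, one_mul]
  congr 1

/-- the determinant of the integrals -/
theorem det_integral {n : ℕ} (g : Fin n → ℝ → ℝ) (hg : ∀ i, Continuous (g i)) (z : Fin (n + 1) → ℝ)
    (hz : Monotone z) :
    Matrix.det (Matrix.of fun i j : Fin n => ∫ t in (z j.castSucc)..(z j.succ), g i t) =
      ∫ t in ibox z, Matrix.det (Matrix.of fun i j : Fin n => g i (t j)) := by
  have hz' : ∀ j : Fin n, z j.castSucc ≤ z j.succ := fun j => hz (Fin.castSucc_lt_succ).le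
  simp only [Matrix.det_apply', Matrix.of_apply]
  rw [integral_finsetSum]
  · refine sum_congr rfl fun σ _ => ?_
    rw [integral_const_mul]
    congr 1
    rw [ibox, volume_pi, Measure.restrict_pi_pi]
    rw [integral_fintype_prod_eq_prod (f := fun (i : Fin n) (t : ℝ) => g (σ i) t)]
    refine prod_congr rfl fun i _ => ?_
    rw [intervalIntegral.integral_of_le (hz' i)]
  · intro σ _
    refine integrableOn_ibox z ?_
    have : Continuous fun t : Fin n → ℝ => ∏ i, g (σ i) (t i) :=
      continuous_finsetProd _ fun i _ => (hg (σ i)).comp (continuous_apply i)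
    exact continuous_const.mul this

/-- **The recursion.** -/
theorem det_rec {n : ℕ} (f : Fin (n + 1) → ℝ → ℝ) (hf0 : ∀ t, f 0 t = 1) (g : Fin n → ℝ → ℝ)
    (hg : ∀ i, Continuous (g i)) (hd : ∀ (i : Fin n) (t : ℝ), HasDerivAt (f i.succ) (g i t) t)
    (z : Fin (n + 1) → ℝ) (hz : Monotone z) :
    Matrix.det (Matrix.of fun i j => f i (z j)) =
      ∫ t in ibox z, Matrix.det (Matrix.of fun i j : Fin n => g i (t j)) := by
  rw [det_succ_eq f hf0 z, ← det_integral g hg z hz]
  congr 1
  ext i j
  simp only [Matrix.of_apply]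
  rw [intervalIntegral.integral_eq_sub_of_hasDerivAt (fun t _ => hd i t) ((hg i).intervalIntegrable _ _)]

end Pool.Agent.N886.SE
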