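import Pool.Agent.N886.SE.Rec

/-!
# Determinants of exponentials with real frequencies at real points: a two-sided estimate
-/

set_option autoImplicit false

namespace Pool.Agent.N886.SE

open Finset MeasureTheory Matrix

/-- the Vandermonde product -/
def Vd {n : ℕ} (x : Fin n → ℝ) : ℝ := ∏ i, ∏ j ∈ Ioi i, (x j - x i)

/-- the determinant of the exponentials -/
noncomputable def K {n : ℕ} (w z : Fin n → ℝ) : ℝ := Matrix.det (Matrix.of fun i j => Real.exp (w i * z j))

/-- the product of the factorials -/
def SF (n : ℕ) : ℝ := ∏ k ∈ range n, (k.factorial : ℝ)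

theorem SF_succ (n : ℕ) : SF (n + 1) = SF n * n.factorial := by
  unfold SF
  rw [prod_range_succ]

theorem SF_pos (n : ℕ) : 0 < SF n := prod_pos fun k _ => by positivity

theorem Vd_nonneg {n : ℕ} {x : Fin n → ℝ} (hx : Monotone x) : 0 ≤ Vd x :=
  prod_nonneg fun i _ => prod_nonneg fun j hj => sub_nonneg.2 (hx (mem_Ioi.1 hj).le)

theorem Vd_det {n : ℕ} (x : Fin n → ℝ) : Matrix.det (Matrix.of fun i j : Fin n => x j ^ (i : ℕ)) = Vd x := by
  have : (Matrix.of fun i j : Fin n => x j ^ (i : ℕ)) = (Matrix.vandermonde x)ᵀ := by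
    ext i j
    simp [Matrix.vandermonde]
  rw [this, Matrix.det_transpose, Matrix.det_vandermonde]
  rfl

theorem Vd_cont {n : ℕ} : Continuous fun x : Fin n → ℝ => Vd x := by
  unfold Vd
  fun_prop

theorem K_cont {n : ℕ} (w : Fin n → ℝ) : Continuous fun x : Fin n → ℝ => K w x := by
  unfold K
  refine Continuous.matrix_det ?_
  refine continuous_matrix fun i j => ?_
  simp only [Matrix.of_apply]
  fun_prop

theorem Vd_rec {n : ℕ} (z : Fin (n + 1) → ℝ) (hz : Monotone z) :
    Vd z = n.factorial * ∫ t in ibox z, Vd t := by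
  have h1 := det_rec (fun (i : Fin (n + 1)) (t : ℝ) => t ^ (i : ℕ)) (fun t => by simp)
    (fun (i : Fin n) (t : ℝ) => ((i : ℕ) + 1 : ℝ) * t ^ (i : ℕ)) (fun i => by fun_prop) (fun i t => by
      have := hasDerivAt_pow (i.succ : ℕ) t
      simpa using this) z hz
  rw [← Vd_det, h1, ← integral_const_mul]
  congr 1
  ext t
  rw [← Vd_det]
  have h2 := Matrix.det_mul_column (fun i : Fin n => ((i : ℕ) + 1 : ℝ))
    (Matrix.of fun i j : Fin n => t j ^ (i : ℕ))
  simp only [Matrix.of_apply] at h2
  rw [h2]
  congr 1
  have h3 := Fin.prod_univ_eq_prod_range (fun i : ℕ => ((i : ℕ) + 1 : ℝ)) n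
  rw [h3]
  have h4 := Finset.prod_range_add_one_eq_factorial n
  have h5 : ((∏ x ∈ range n, (x + 1) : ℕ) : ℝ) = n.factorial := by rw [h4]
  push_cast at h5
  exact h5

theorem Vd_succ {n : ℕ} (w : Fin (n + 1) → ℝ) :
    Vd w = (∏ i : Fin n, (w i.succ - w 0)) * Vd (fun i : Fin n => w i.succ - w 0) := by
  unfold Vd
  rw [Fin.prod_univ_succ]
  congr 1
  · rw [Fin.prod_Ioi_zero]
  · refine prod_congr rfl fun i _ => ?_
    rw [Fin.prod_Ioi_succ]
    refine prod_congr rfl fun j _ => ?_
    ring

theorem K_rec {n : ℕ} (w z : Fin (n + 1) → ℝ) (hz : Monotone z) :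
    K w z = Real.exp (w 0 * ∑ j, z j) * ((∏ i : Fin n, (w i.succ - w 0)) *
      ∫ t in ibox z, K (fun i : Fin n => w i.succ - w 0) t) := by
  have h0 : (Matrix.of fun i j : Fin (n + 1) => Real.exp (w i * z j)) =
      Matrix.of fun i j : Fin (n + 1) => Real.exp (w 0 * z j) *
        (Matrix.of fun i j : Fin (n + 1) => Real.exp ((w i - w 0) * z j)) i j := by
    ext i j
    simp only [Matrix.of_apply]
    rw [← Real.exp_add]
    congr 1
    ring
  unfold K
  rw [h0, Matrix.det_mul_row]
  congr 1
  · rw [← Real.exp_sum]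
    congr 1
    rw [mul_sum]
  · have h1 := det_rec (fun (i : Fin (n + 1)) (t : ℝ) => Real.exp ((w i - w 0) * t)) (fun t => by simp)
      (fun (i : Fin n) (t : ℝ) => (w i.succ - w 0) * Real.exp ((w i.succ - w 0) * t))
      (fun i => by fun_prop) (fun i t => by
        have h := ((hasDerivAt_id t).const_mul (w i.succ - w 0)).exp
        simp only [id] at h
        convert h using 1
        ring) z hz
    rw [h1, ← integral_const_mul]
    congr 1
    ext t
    have h2 := Matrix.det_mul_column (fun i : Fin n => w i.succ - w 0)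
      (Matrix.of fun i j : Fin n => Real.exp ((w i.succ - w 0) * t j))
    simp only [Matrix.of_apply] at h2
    exact h2

/-- **The two-sided estimate.** -/
theorem sandwich (Z : ℝ) : ∀ (n : ℕ) (w z : Fin n → ℝ), (∀ i, 0 ≤ w i) → Monotone w → Monotone z →
    (∀ j, |z j| ≤ Z) →
    Real.exp (-(Z * ∑ i, w i)) * (Vd w * Vd z) ≤ SF n * K w z ∧
      SF n * K w z ≤ Real.exp (Z * ∑ i, w i) * (Vd w * Vd z) := by
  intro n
  induction n with
  | zero =>
    intro w z _ _ _ _
    simp [SF, K, Vd]
  | succ n ih =>
    intro w z hw0 hw hz hZ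
    set v : Fin n → ℝ := fun i => w i.succ - w 0 with hv
    have hv0 : ∀ i, 0 ≤ v i := fun i => sub_nonneg.2 (hw (Fin.zero_le _))
    have hvm : Monotone v := fun i j hij => by
      have := hw (Fin.succ_le_succ_iff.2 hij)
      simp only [hv]
      linarith
    have hP : 0 ≤ ∏ i : Fin n, (w i.succ - w 0) := prod_nonneg fun i _ => hv0 i
    have hmem : ∀ t ∈ ibox z, Monotone t ∧ ∀ j, |t j| ≤ Z := by
      intro t ht
      have ht' : ∀ j : Fin n, t j ∈ Set.Ioc (z j.castSucc) (z j.succ) := fun j => ht j (Set.mem_univ _)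
      refine ⟨fun i j hij => ?_, fun j => ?_⟩
      · rcases hij.eq_or_lt with h | h
        · rw [h]
        · have h1 := (ht' i).2
          have h2 := (ht' j).1.le
          have h3 : i.succ ≤ j.castSucc := by
            rw [Fin.le_def]
            simpa using h
          exact h1.trans ((hz h3).trans h2)
      · have h1 := abs_le.1 (hZ j.castSucc)
        have h2 := abs_le.1 (hZ j.succ)
        rw [abs_le]
        exact ⟨by linarith [(ht' j).1], by linarith [(ht' j).2]⟩
    have hms : MeasurableSet (ibox z) := MeasurableSet.univ_pi fun j => measurableSet_Ioc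
    have hK : IntegrableOn (fun t => K v t) (ibox z) := integrableOn_ibox z (K_cont v)
    have hV : IntegrableOn (fun t : Fin n → ℝ => Vd t) (ibox z) := integrableOn_ibox z Vd_cont
    have hup : SF n * ∫ t in ibox z, K v t ≤ Real.exp (Z * ∑ i, v i) * Vd v * ∫ t in ibox z, Vd t := by
      rw [← integral_const_mul, ← integral_const_mul]
      refine setIntegral_mono_on (hK.const_mul _) (hV.const_mul _) hms fun t ht => ?_
      have := (ih v t hv0 hvm (hmem t ht).1 (hmem t ht).2).2
      linarith
    have hlo : Real.exp (-(Z * ∑ i, v i)) * Vd v * ∫ t in ibox z, Vd t ≤ SF n * ∫ t in ibox z, K v t := by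
      rw [← integral_const_mul, ← integral_const_mul]
      refine setIntegral_mono_on (hV.const_mul _) (hK.const_mul _) hms fun t ht => ?_
      have := (ih v t hv0 hvm (hmem t ht).1 (hmem t ht).2).1
      linarith
    have hs : |w 0 * ∑ j, z j| ≤ (n + 1) * w 0 * Z := by
      rw [abs_mul, abs_of_nonneg (hw0 0)]
      have h1 : |∑ j, z j| ≤ (n + 1) * Z := by
        refine (abs_sum_le_sum_abs _ _).trans ?_
        have := sum_le_sum (fun (j : Fin (n + 1)) (_ : j ∈ univ) => hZ j)
        refine this.trans ?_
        rw [sum_const, card_univ, Fintype.card_fin, nsmul_eq_mul]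
        push_cast
        rfl
      nlinarith [hw0 0]
    have hsum : ∑ i, w i = (n + 1) * w 0 + ∑ i, v i := by
      rw [Fin.sum_univ_succ]
      simp only [hv, sum_sub_distrib, sum_const, card_univ, Fintype.card_fin, nsmul_eq_mul]
      ring
    have hVz := Vd_nonneg hz
    have hVv := Vd_nonneg hvm
    rw [K_rec w z hz, Vd_succ w, SF_succ, hsum]
    rw [Vd_rec z hz] at hVz ⊢
    set I := ∫ t in ibox z, Vd t with hI
    set J := ∫ t in ibox z, K v t with hJ
    set P := ∏ i : Fin n, (w i.succ - w 0) with hPd
    obtain ⟨hs1, hs2⟩ := abs_le.1 hs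
    have hfac : (0 : ℝ) ≤ n.factorial := by positivity
    constructor
    · calc Real.exp (-(Z * ((n + 1) * w 0 + ∑ i, v i))) * (P * Vd v * (n.factorial * I))
          = Real.exp (-((n + 1) * w 0 * Z)) * (P * n.factorial * (Real.exp (-(Z * ∑ i, v i)) * Vd v * I)) := by
            rw [show -(Z * ((n + 1) * w 0 + ∑ i, v i)) = -((n + 1) * w 0 * Z) + -(Z * ∑ i, v i) by ring,
              Real.exp_add]
            ring
        _ ≤ Real.exp (w 0 * ∑ j, z j) * (P * n.factorial * (SF n * J)) := by
            have hnn : 0 ≤ Real.exp (-(Z * ∑ i, v i)) * Vd v * I := by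
              have : 0 ≤ I := by
                have h6 : (0 : ℝ) < n.factorial := by positivity
                exact nonneg_of_mul_nonneg_right hVz h6
              positivity
            refine mul_le_mul (Real.exp_le_exp.2 hs1) ?_ (by positivity) (Real.exp_pos _).le
            exact mul_le_mul_of_nonneg_left hlo (by positivity)
        _ = _ := by ring
    · calc SF n * n.factorial * (Real.exp (w 0 * ∑ j, z j) * (P * J))
          = Real.exp (w 0 * ∑ j, z j) * (P * n.factorial * (SF n * J)) := by ring
        _ ≤ Real.exp ((n + 1) * w 0 * Z) * (P * n.factorial * (Real.exp (Z * ∑ i, v i) * Vd v * I)) := by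
            have hnn : 0 ≤ SF n * J := by
              refine le_trans ?_ hlo
              have : 0 ≤ I := by
                have h6 : (0 : ℝ) < n.factorial := by positivity
                exact nonneg_of_mul_nonneg_right hVz h6
              positivity
            refine mul_le_mul (Real.exp_le_exp.2 hs2) ?_ (by positivity) (Real.exp_pos _).le
            exact mul_le_mul_of_nonneg_left hup (by positivity)
        _ = _ := by
            rw [show Z * ((n + 1) * w 0 + ∑ i, v i) = (n + 1) * w 0 * Z + Z * ∑ i, v i by ring,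
              Real.exp_add]
            ring

end Pool.Agent.N886.SE
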