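import Pool.Agent.N886.SE.Core

/-!
# A uniform six exponentials theorem for rational numbers
-/

set_option autoImplicit false

namespace Pool.Agent.N886.SE

open Finset

/-- the entries of the rational matrix -/
def ent (u r : Fin 3 → ℚ) (a b : ℕ) (h : Fin 3 → ℕ) : ℚ := ∏ m, (u m ^ (a * h m) * r m ^ (b * h m))

theorem ent_pos {u r : Fin 3 → ℚ} (hu : ∀ m, 0 < u m) (hr : ∀ m, 0 < r m) (a b : ℕ) (h : Fin 3 → ℕ) :
    0 < ent u r a b h := prod_pos fun m _ => mul_pos (pow_pos (hu m) _) (pow_pos (hr m) _)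

theorem ent_log {u r : Fin 3 → ℚ} (hu : ∀ m, 0 < u m) (hr : ∀ m, 0 < r m) (a b : ℕ) (h : Fin 3 → ℕ) :
    Real.log (ent u r a b h : ℝ) = ∑ m, (h m : ℝ) * (a * Real.log (u m) + b * Real.log (r m)) := by
  unfold ent
  push_cast
  have hu' : ∀ m, (u m : ℝ) ≠ 0 := fun m => by exact_mod_cast (hu m).ne'
  have hr' : ∀ m, (r m : ℝ) ≠ 0 := fun m => by exact_mod_cast (hr m).ne'
  rw [Real.log_prod fun m _ => mul_ne_zero (pow_ne_zero _ (hu' m)) (pow_ne_zero _ (hr' m))]
  refine sum_congr rfl fun m _ => ?_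
  rw [Real.log_mul (pow_ne_zero _ (hu' m)) (pow_ne_zero _ (hr' m)), Real.log_pow, Real.log_pow]
  push_cast
  ring

theorem pow_den (q : ℚ) (k K : ℕ) (hk : k ≤ K) : ∃ c : ℤ, ((q.den : ℚ) ^ K) * q ^ k = c := by
  refine ⟨q.den ^ (K - k) * q.num ^ k, ?_⟩
  have h1 : (q.den : ℚ) * q = q.num := by
    rw [mul_comm]
    exact_mod_cast Rat.mul_den_eq_num q
  obtain ⟨j, rfl⟩ := Nat.exists_eq_add_of_le hk
  rw [Nat.add_sub_cancel_left, pow_add]
  push_cast
  rw [← h1, mul_pow]
  ring

theorem ent_den (u r : Fin 3 → ℚ) (a b : ℕ) (h : Fin 3 → ℕ) {M : ℕ} (ha : ∀ m, a * h m ≤ M)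
    (hb : ∀ m, b * h m ≤ M) :
    ∃ c : ℤ, (((∏ m, ((u m).den ^ M * (r m).den ^ M) : ℕ) : ℚ)) * ent u r a b h = c := by
  choose c1 h1 using fun m => pow_den (u m) (a * h m) M (ha m)
  choose c2 h2 using fun m => pow_den (r m) (b * h m) M (hb m)
  refine ⟨∏ m, (c1 m * c2 m), ?_⟩
  unfold ent
  push_cast
  rw [← prod_mul_distrib]
  refine prod_congr rfl fun m _ => ?_
  rw [← h1 m, ← h2 m]
  ring

/-- determinants of rational matrices with a common denominator -/
theorem det_ge {n : ℕ} (M : Matrix (Fin n) (Fin n) ℚ) (D : ℕ) (hD : 1 ≤ D)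
    (h : ∀ i j, ∃ c : ℤ, (D : ℚ) * M i j = c) (h0 : M.det ≠ 0) : ((D : ℝ) ^ n)⁻¹ ≤ |((M.det : ℚ) : ℝ)| := by
  choose c hc using h
  have h1 : ((D : ℚ) • M).det = ((Matrix.det (Matrix.of c) : ℤ) : ℚ) := by
    have : ((D : ℚ) • M) = (Int.castRingHom ℚ).mapMatrix (Matrix.of c) := by
      ext i j
      simp [hc]
    rw [this, ← RingHom.map_det]
    rfl
  rw [Matrix.det_smul, Fintype.card_fin] at h1
  have hD0 : (D : ℚ) ≠ 0 := by exact_mod_cast (by omega : D ≠ 0)
  have h2 : Matrix.det (Matrix.of c) ≠ 0 := by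
    intro h
    rw [h, Int.cast_zero] at h1
    exact (mul_ne_zero (pow_ne_zero _ hD0) h0) h1
  have h3 : (1 : ℝ) ≤ |((Matrix.det (Matrix.of c) : ℤ) : ℝ)| := by
    exact_mod_cast Int.one_le_abs h2
  have h4 : (D : ℝ) ^ n * ((M.det : ℚ) : ℝ) = ((Matrix.det (Matrix.of c) : ℤ) : ℝ) := by
    have h5 := congrArg (fun q : ℚ => (q : ℝ)) h1
    simp only [Rat.cast_mul, Rat.cast_pow, Rat.cast_natCast, Rat.cast_intCast] at h5
    exact h5
  have hDp : (0 : ℝ) < (D : ℝ) ^ n := by positivity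
  rw [← h4, abs_mul, abs_of_pos hDp] at h3
  rw [inv_le_iff_one_le_mul₀' hDp]
  exact h3

set_option maxHeartbeats 4000000 in
/-- **A uniform six exponentials theorem**: if `θ` times the logarithms of three multiplicatively independent
rational numbers are close to logarithms of rational numbers, then `θ` is close to a rational number with a small
denominator. -/
theorem core (R : ℕ) (θ L A : ℝ) (hθ : 0 ≤ θ) (hL : 1 ≤ L) (hR : 666 * ((1 + θ) * L) ≤ R) (hA : 0 ≤ A)
    (u r : Fin 3 → ℚ) (hu : ∀ m, 0 < u m) (hr : ∀ m, 0 < r m)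
    (hun : ∀ m, ((u m).num : ℝ) ≤ Real.exp L) (hud : ∀ m, ((u m).den : ℝ) ≤ Real.exp L)
    (hrd : ∀ m, ((r m).den : ℝ) ≤ Real.exp L)
    (hind : ∀ d : Fin 3 → ℤ, d ≠ 0 → (∀ m, |d m| < R ^ 2) → ∑ m, (d m : ℝ) * Real.log (u m) ≠ 0)
    (happ : ∀ m, |Real.log (r m) - θ * Real.log (u m)| ≤ Real.exp (-((R : ℝ) ^ 12 * (A + (R : ℝ) ^ 3)))) :
    ∃ a b : ℤ, (a ≠ 0 ∨ b ≠ 0) ∧ |a| < R ^ 3 ∧ |b| < R ^ 3 ∧ |(a : ℝ) + b * θ| < Real.exp (-A) := by
  by_contra hcon
  push Not at hcon
  set x : ℝ := (R : ℝ) with hx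
  have hx666 : 666 ≤ x := by nlinarith
  have hR1 : 666 ≤ R := by
    have h : (666 : ℝ) ≤ (R : ℝ) := hx666
    exact_mod_cast h
  set T : ℕ := R ^ 3 with hT
  set S : ℕ := R ^ 2 with hS
  set n : ℕ := R ^ 6 with hn
  have hTx : (T : ℝ) = x ^ 3 := by rw [hT]; push_cast; rfl
  have hSx : (S : ℝ) = x ^ 2 := by rw [hS]; push_cast; rfl
  have hnx : (n : ℝ) = x ^ 6 := by rw [hn]; push_cast; rfl
  have hT1 : 1 ≤ T := Nat.one_le_pow _ _ (by omega)
  have hS1 : 1 ≤ S := Nat.one_le_pow _ _ (by omega)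
  have hn1 : 1 ≤ n := Nat.one_le_pow _ _ (by omega)
  have hL0 : 0 ≤ L := by linarith
  have hTz : ((R : ℤ) ^ 3) = (T : ℤ) := by rw [hT]; push_cast; rfl
  rw [hTz] at hcon
  have hSz : ((R : ℤ) ^ 2) = (S : ℤ) := by rw [hS]; push_cast; rfl
  rw [hSz] at hind
  -- the frequencies
  set Ws : Finset ℝ := (range T ×ˢ range T).image (fun p : ℕ × ℕ => (p.1 : ℝ) + p.2 * θ) with hWs
  have hWcard : Ws.card = n := by
    rw [hWs, card_image_of_injOn, card_product, card_range]
    · rw [hT, hn]; ring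
    · rintro ⟨a, b⟩ hp ⟨a', b'⟩ hp' heq
      have hp1 := mem_product.1 (mem_coe.1 hp)
      have hp1' := mem_product.1 (mem_coe.1 hp')
      simp only [mem_range] at hp1 hp1'
      simp only at heq
      by_contra hne
      have h1 := hcon ((a : ℤ) - a') ((b : ℤ) - b') (by
        by_contra h
        push Not at h
        apply hne
        rw [Prod.mk.injEq]
        omega) (by
          rw [abs_lt]
          constructor <;> omega) (by
          rw [abs_lt]
          constructor <;> omega)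
      have h2 : (((a : ℤ) - a' : ℤ) : ℝ) + (((b : ℤ) - b' : ℤ) : ℝ) * θ = 0 := by
        push_cast
        linarith
      rw [h2, abs_zero] at h1
      exact absurd h1 (not_le.2 (Real.exp_pos _))
  set w : Fin n → ℝ := fun i => Ws.orderEmbOfFin hWcard i with hw
  have hwm : StrictMono w := (Ws.orderEmbOfFin hWcard).strictMono
  have hwmem : ∀ i, ∃ p : ℕ × ℕ, p.1 < T ∧ p.2 < T ∧ (p.1 : ℝ) + p.2 * θ = w i := by
    intro i
    have h1 : w i ∈ Ws := Ws.orderEmbOfFin_mem hWcard i
    rw [hWs, mem_image] at h1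
    obtain ⟨p, hp, hpe⟩ := h1
    rw [mem_product, mem_range, mem_range] at hp
    exact ⟨p, hp.1, hp.2, hpe⟩
  choose p hpa hpb hpw using hwmem
  have hw0 : ∀ i, 0 ≤ w i := fun i => by rw [← hpw i]; positivity
  set W : ℝ := (1 + θ) * T with hW
  have hwW : ∀ i, w i ≤ W := fun i => by
    rw [← hpw i, hW]
    have h1 : ((p i).1 : ℝ) ≤ T := by exact_mod_cast (hpa i).le
    have h2 : ((p i).2 : ℝ) ≤ T := by exact_mod_cast (hpb i).le
    nlinarith
  have hwsep : ∀ i j, i < j → Real.exp (-A) ≤ w j - w i := by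
    intro i j hij
    have h0 := hwm hij
    have h1 := hcon (((p j).1 : ℤ) - (p i).1) (((p j).2 : ℤ) - (p i).2) (by
        by_contra h
        push Not at h
        have e1 : (p j).1 = (p i).1 := by omega
        have e2 : (p j).2 = (p i).2 := by omega
        rw [← hpw i, ← hpw j, e1, e2] at h0
        exact lt_irrefl _ h0) (by
          have := hpa i
          have := hpa j
          rw [abs_lt]
          constructor <;> omega) (by
          have := hpb i
          have := hpb j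
          rw [abs_lt]
          constructor <;> omega)
    have h2 : ((((p j).1 : ℤ) - (p i).1 : ℤ) : ℝ) + ((((p j).2 : ℤ) - (p i).2 : ℤ) : ℝ) * θ = w j - w i := by
      rw [← hpw i, ← hpw j]
      push_cast
      ring
    rw [h2, abs_of_pos (sub_pos.2 h0)] at h1
    exact h1
  -- the points
  set ℓ : Fin 3 → ℝ := fun m => Real.log (u m) with hℓ
  have hℓL : ∀ m, |ℓ m| ≤ L := by
    intro m
    have h1 := log_rat (hu m)
    have h2 : (1 : ℝ) ≤ ((u m).num.toNat : ℝ) := by
      have : (0 : ℤ) < (u m).num := Rat.num_pos.2 (hu m)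
      have h3 : 1 ≤ (u m).num.toNat := by omega
      exact_mod_cast h3
    have h3 : (1 : ℝ) ≤ ((u m).den : ℝ) := by exact_mod_cast (u m).den_pos
    have h4 : ((u m).num.toNat : ℝ) ≤ Real.exp L := by
      have h5 : (0 : ℤ) < (u m).num := Rat.num_pos.2 (hu m)
      have : (((u m).num.toNat : ℕ) : ℤ) = (u m).num := Int.toNat_of_nonneg h5.le
      have h6 : (((u m).num.toNat : ℕ) : ℝ) = ((u m).num : ℝ) := by
        exact_mod_cast congrArg (fun z : ℤ => (z : ℝ)) this
      rw [h6]; exact hun m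
    have h5 : Real.log ((u m).num.toNat : ℝ) ≤ L := (Real.log_le_iff_le_exp (by linarith)).2 h4
    have h6 : Real.log ((u m).den : ℝ) ≤ L := (Real.log_le_iff_le_exp (by linarith)).2 (hud m)
    have h7 := Real.log_nonneg h2
    have h8 := Real.log_nonneg h3
    simp only [hℓ]
    rw [h1, abs_le]
    constructor <;> linarith
  set Zs : Finset ℝ := (Fintype.piFinset fun _ : Fin 3 => range S).image
    (fun h : Fin 3 → ℕ => ∑ m, (h m : ℝ) * ℓ m) with hZs
  have hZcard : Zs.card = n := by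
    rw [hZs, card_image_of_injOn, Fintype.card_piFinset]
    · simp only [card_range, prod_const, card_univ, Fintype.card_fin]
      rw [hS, hn]; ring
    · intro h hh h' hh' heq
      by_contra hne
      have h1 := hind (fun m => (h m : ℤ) - h' m) (by
        intro h0
        apply hne
        funext m
        have := congrFun h0 m
        simp only [Pi.zero_apply] at this
        omega) (fun m => by
          have e1 := mem_range.1 (Fintype.mem_piFinset.1 (mem_coe.1 hh) m)
          have e2 := mem_range.1 (Fintype.mem_piFinset.1 (mem_coe.1 hh') m)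
          rw [abs_lt]
          constructor <;> omega)
      apply h1
      have h2 : (∑ m, (h m : ℝ) * ℓ m) = ∑ m, (h' m : ℝ) * ℓ m := heq
      have h3 : ∑ m, (((h m : ℤ) - h' m : ℤ) : ℝ) * Real.log (u m) =
          (∑ m, (h m : ℝ) * ℓ m) - ∑ m, (h' m : ℝ) * ℓ m := by
        rw [← sum_sub_distrib]
        refine sum_congr rfl fun m _ => ?_
        push_cast
        simp only [hℓ]
        ring
      rw [h3, h2, sub_self]
  set z : Fin n → ℝ := fun i => Zs.orderEmbOfFin hZcard i with hz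
  have hzm : StrictMono z := (Zs.orderEmbOfFin hZcard).strictMono
  have hzmem : ∀ i, ∃ h : Fin 3 → ℕ, (∀ m, h m < S) ∧ ∑ m, (h m : ℝ) * ℓ m = z i := by
    intro i
    have h1 : z i ∈ Zs := Zs.orderEmbOfFin_mem hZcard i
    rw [hZs, mem_image] at h1
    obtain ⟨h, hh, hhe⟩ := h1
    rw [Fintype.mem_piFinset] at hh
    exact ⟨h, fun m => mem_range.1 (hh m), hhe⟩
  choose h hhS hhz using hzmem
  set Z : ℝ := 3 * S * L with hZ
  have hzZ : ∀ j, |z j| ≤ Z := by
    intro j
    rw [← hhz j]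
    refine (abs_sum_le_sum_abs _ _).trans ?_
    have h1 : ∀ m ∈ univ, |(h j m : ℝ) * ℓ m| ≤ S * L := by
      intro m _
      rw [abs_mul, abs_of_nonneg (by positivity : (0 : ℝ) ≤ h j m)]
      exact mul_le_mul (by exact_mod_cast (hhS j m).le) (hℓL m) (abs_nonneg _) (by positivity)
    refine (sum_le_sum h1).trans ?_
    rw [sum_const, card_univ, Fintype.card_fin, nsmul_eq_mul, hZ]
    push_cast
    linarith
  have hzsep : ∀ i j, i < j → Real.exp (-Z) ≤ z j - z i := by
    intro i j hij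
    have h0 := hzm hij
    have h2 : ∑ m, (((h j m : ℤ) - h i m : ℤ) : ℝ) * Real.log (u m) = z j - z i := by
      rw [← hhz i, ← hhz j, ← sum_sub_distrib]
      refine sum_congr rfl fun m _ => ?_
      push_cast
      simp only [hℓ]
      ring
    have h1 := form_ge u hu hun hud S (fun m => (h j m : ℤ) - h i m) (fun m => by
      have := hhS j m
      have := hhS i m
      rw [abs_le]
      constructor <;> omega) (by
        rw [h2]
        exact (sub_pos.2 h0).ne') hL0
    rw [h2, abs_of_pos (sub_pos.2 h0)] at h1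
    exact h1
  -- sizes
  have hZ0 : 0 ≤ Z := by rw [hZ]; positivity
  have hW0 : 0 ≤ W := by rw [hW]; positivity
  have hcond : 222 * (Z * W) ≤ (n : ℝ) := by
    rw [hZ, hW, hTx, hSx, hnx]
    have : 222 * (3 * x ^ 2 * L * ((1 + θ) * x ^ 3)) = x ^ 5 * (666 * ((1 + θ) * L)) := by ring
    rw [this]
    calc x ^ 5 * (666 * ((1 + θ) * L)) ≤ x ^ 5 * x := mul_le_mul_of_nonneg_left hR (by positivity)
      _ = x ^ 6 := by ring
  have hup := K_le (by
    calc 4 ≤ R := by omega
      _ ≤ R ^ 6 := Nat.le_self_pow (by norm_num) R) w z hw0 hwm.monotone hzm.monotone hwW hzZ hcond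
  have hlo := le_K hn1 w z hw0 hwm.monotone hzm.monotone hwW hzZ hwsep hzsep hA hZ0
  set δ : ℝ := Real.exp (-(x ^ 12 * (A + x ^ 3))) with hδ
  have hδ0 : 0 < δ := Real.exp_pos _
  -- the rational matrix
  set N : Matrix (Fin n) (Fin n) ℚ := Matrix.of fun i j => ent u r (p i).1 (p i).2 (h j) with hN
  set M : Matrix (Fin n) (Fin n) ℝ := Matrix.of fun i j => Real.exp (w i * z j) with hM
  set N' : Matrix (Fin n) (Fin n) ℝ := (Rat.castHom ℝ).mapMatrix N with hN'
  have hdetN' : N'.det = ((N.det : ℚ) : ℝ) := by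
    rw [hN', ← RingHom.map_det]
    rfl
  have hexp : ∀ i j, |Real.log ((N i j : ℚ) : ℝ) - w i * z j| ≤ 3 * S * T * δ := by
    intro i j
    rw [hN, Matrix.of_apply, ent_log hu hr, ← hpw i, ← hhz j, mul_sum, ← sum_sub_distrib]
    refine (abs_sum_le_sum_abs _ _).trans ?_
    have h1 : ∀ m ∈ univ, |(h j m : ℝ) * ((p i).1 * Real.log (u m) + (p i).2 * Real.log (r m)) -
        ((p i).1 + (p i).2 * θ) * ((h j m : ℝ) * ℓ m)| ≤ S * T * δ := by
      intro m _
      have e1 : (h j m : ℝ) * ((p i).1 * Real.log (u m) + (p i).2 * Real.log (r m)) -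
        ((p i).1 + (p i).2 * θ) * ((h j m : ℝ) * ℓ m) =
        (h j m : ℝ) * (p i).2 * (Real.log (r m) - θ * Real.log (u m)) := by
        simp only [hℓ]
        ring
      rw [e1, abs_mul, abs_of_nonneg (by positivity : (0 : ℝ) ≤ (h j m : ℝ) * (p i).2)]
      refine mul_le_mul ?_ (happ m) (abs_nonneg _) (by positivity)
      exact mul_le_mul (by exact_mod_cast (hhS j m).le) (by exact_mod_cast (hpb i).le) (by positivity)
        (by positivity)
    refine (sum_le_sum h1).trans ?_
    rw [sum_const, card_univ, Fintype.card_fin, nsmul_eq_mul]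
    push_cast
    linarith
  have hnum := num_ineq (x := x) (A := A) (W := W) (Z := Z) (G := Z) hx666 hA (by rw [← hnx]; exact hcond)
    (by
      rw [hZ, hSx]
      have : L ≤ x / 666 := by
        rw [le_div_iff₀ (by norm_num)]
        nlinarith
      calc 3 * x ^ 2 * L ≤ 3 * x ^ 2 * (x / 666) := mul_le_mul_of_nonneg_left this (by positivity)
        _ = x ^ 3 / 222 := by ring) (mul_nonneg hZ0 hW0)
  have hsmall : 3 * S * T * δ ≤ 1 := by
    have h1 : (3 : ℝ) * S * T ≤ Real.exp (3 * S * T) := by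
      have := Real.add_one_le_exp ((3 : ℝ) * S * T)
      linarith
    have h2 : (3 : ℝ) * S * T ≤ x ^ 12 * (A + x ^ 3) := by
      have e : (3 : ℝ) * S * T = 3 * x ^ 5 := by rw [hSx, hTx]; ring
      rw [e]
      have e2 : x ^ 12 * (A + x ^ 3) = x ^ 12 * A + x ^ 10 * x ^ 5 := by ring
      rw [e2]
      have e3 : 3 ≤ x ^ 10 := by
        calc (3 : ℝ) ≤ x := by linarith
          _ ≤ x ^ 10 := le_self_pow₀ (by linarith) (by norm_num)
      have e4 : 3 * x ^ 5 ≤ x ^ 10 * x ^ 5 := mul_le_mul_of_nonneg_right e3 (by positivity)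
      have e5 : 0 ≤ x ^ 12 * A := by positivity
      linarith
    calc 3 * S * T * δ ≤ Real.exp (3 * S * T) * Real.exp (-(3 * S * T)) := by
          refine mul_le_mul h1 (Real.exp_le_exp.2 (by linarith)) hδ0.le (Real.exp_pos _).le
      _ = 1 := by rw [← Real.exp_add]; simp
  have hB1 : (1 : ℝ) ≤ Real.exp (W * Z + 1) := Real.one_le_exp (by positivity)
  have hMle : ∀ i j, |M i j| ≤ Real.exp (W * Z) := by
    intro i j
    rw [hM, Matrix.of_apply, Real.abs_exp]
    refine Real.exp_le_exp.2 ?_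
    calc w i * z j ≤ |w i| * |z j| := (le_abs_self _).trans (abs_mul _ _).le
      _ ≤ W * Z := mul_le_mul (by rw [abs_of_nonneg (hw0 i)]; exact hwW i) (hzZ j) (abs_nonneg _) hW0
  have hNe : ∀ i j, N' i j = Real.exp (Real.log ((N i j : ℚ) : ℝ)) := by
    intro i j
    have hpos : (0 : ℝ) < ((N i j : ℚ) : ℝ) := by
      rw [hN, Matrix.of_apply]
      exact_mod_cast ent_pos hu hr _ _ _
    rw [Real.exp_log hpos]
    rfl
  have hdiff : ∀ i j, |M i j - N' i j| ≤ Real.exp (W * Z) * (6 * S * T * δ) := by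
    intro i j
    have h1 := hexp i j
    set y := Real.log ((N i j : ℚ) : ℝ) with hy
    have h2 : M i j - N' i j = -(M i j * (Real.exp (y - w i * z j) - 1)) := by
      rw [hNe i j, hM, Matrix.of_apply, Real.exp_sub]
      field_simp
      ring
    rw [h2, abs_neg, abs_mul]
    refine mul_le_mul (hMle i j) ?_ (abs_nonneg _) (Real.exp_pos _).le
    refine (Real.abs_exp_sub_one_le (h1.trans hsmall)).trans ?_
    linarith
  have hMle' : ∀ i j, |M i j| ≤ Real.exp (W * Z + 1) := fun i j =>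
    (hMle i j).trans (Real.exp_le_exp.2 (by linarith))
  have hNle' : ∀ i j, |N' i j| ≤ Real.exp (W * Z + 1) := by
    intro i j
    rw [hNe i j, Real.abs_exp]
    refine Real.exp_le_exp.2 ?_
    have h1 := (abs_le.1 ((hexp i j).trans hsmall)).2
    have h2 : w i * z j ≤ W * Z := by
      calc w i * z j ≤ |w i| * |z j| := (le_abs_self _).trans (abs_mul _ _).le
        _ ≤ W * Z := mul_le_mul (by rw [abs_of_nonneg (hw0 i)]; exact hwW i) (hzZ j) (abs_nonneg _) hW0
    linarith
  have hdet := det_sub_det_le M N' hB1 hMle' hNle' hdiff (by positivity)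
  have hMK : M.det = K w z := rfl
  rw [hMK, hdetN'] at hdet
  have hnR1 : (1 : ℝ) ≤ n := by exact_mod_cast hn1
  have hnR0 : (0 : ℝ) < n := by linarith
  -- the perturbation is at most half of the determinant
  have hhalf : n.factorial * (n * Real.exp (W * Z + 1) ^ n * (Real.exp (W * Z) * (6 * S * T * δ))) ≤
      K w z / 2 := by
    have f1 : (n.factorial : ℝ) ≤ Real.exp (n * Real.log n) := by
      have h1 : (n.factorial : ℝ) ≤ (n : ℝ) ^ n := by exact_mod_cast Nat.factorial_le_pow n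
      refine h1.trans (le_of_eq ?_)
      rw [mul_comm, Real.exp_mul, Real.exp_log hnR0, Real.rpow_natCast]
    have f2 : (n : ℝ) = Real.exp (Real.log n) := (Real.exp_log hnR0).symm
    have f3 : Real.exp (W * Z + 1) ^ n = Real.exp (n * (W * Z + 1)) := by rw [← Real.exp_nat_mul]
    have f4 : (6 : ℝ) * S * T ≤ Real.exp (6 * x ^ 5) := by
      have e : (6 : ℝ) * S * T = 6 * x ^ 5 := by rw [hSx, hTx]; ring
      rw [e]
      have := Real.add_one_le_exp (6 * x ^ 5)
      linarith
    have f5 : Real.exp (-1) ≤ 1 / 2 := by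
      have h1 := Real.add_one_le_exp (1 : ℝ)
      rw [Real.exp_neg, ← one_div]
      exact one_div_le_one_div_of_le (by norm_num) (by linarith)
    calc (n.factorial : ℝ) * (n * Real.exp (W * Z + 1) ^ n * (Real.exp (W * Z) * (6 * S * T * δ)))
        ≤ Real.exp (n * Real.log n) * (Real.exp (Real.log n) * Real.exp (n * (W * Z + 1)) *
          (Real.exp (W * Z) * (Real.exp (6 * x ^ 5) * δ))) := by
          rw [f3]
          refine mul_le_mul f1 ?_ (by positivity) (Real.exp_pos _).le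
          refine mul_le_mul (mul_le_mul f2.le le_rfl (Real.exp_pos _).le (Real.exp_pos _).le) ?_
            (by positivity) (by positivity)
          exact mul_le_mul_of_nonneg_left (mul_le_mul_of_nonneg_right f4 hδ0.le) (Real.exp_pos _).le
      _ = Real.exp (n * Real.log n + (Real.log n + (n * (W * Z + 1) + (W * Z + 6 * x ^ 5))) -
          x ^ 12 * (A + x ^ 3)) := by
          rw [hδ, ← Real.exp_add, ← Real.exp_add, ← Real.exp_add, ← Real.exp_add, ← Real.exp_add]
          congr 1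
          ring
      _ ≤ Real.exp (-1 + -(n * (Z * W) + (A + Z + Real.log n) * (n : ℝ) ^ 2 / 2)) := by
          refine Real.exp_le_exp.2 ?_
          rw [← hnx] at hnum
          linarith
      _ = Real.exp (-1) * Real.exp (-(n * (Z * W) + (A + Z + Real.log n) * (n : ℝ) ^ 2 / 2)) :=
          Real.exp_add _ _
      _ ≤ 1 / 2 * K w z := mul_le_mul f5 hlo (Real.exp_pos _).le (by norm_num)
      _ = K w z / 2 := by ring
  have hKpos : 0 < K w z := lt_of_lt_of_le (Real.exp_pos _) hlo
  have hclose : |K w z - ((N.det : ℚ) : ℝ)| ≤ K w z / 2 := hdet.trans hhalf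
  obtain ⟨hc1, hc2⟩ := abs_le.1 hclose
  have hNdet0 : N.det ≠ 0 := by
    intro h0
    rw [h0] at hc2
    simp only [Rat.cast_zero, sub_zero] at hc2
    linarith
  -- the denominator
  set D : ℕ := ∏ m, ((u m).den ^ (S * T) * (r m).den ^ (S * T)) with hD
  have hD1 : 1 ≤ D := Nat.one_le_iff_ne_zero.2 (prod_ne_zero_iff.2 fun m _ =>
    mul_ne_zero (pow_ne_zero _ (u m).den_nz) (pow_ne_zero _ (r m).den_nz))
  have hge := det_ge N D hD1 (fun i j => by
    rw [hN, Matrix.of_apply, hD]
    refine ent_den u r _ _ _ (fun m => ?_) (fun m => ?_)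
    · rw [mul_comm]; exact Nat.mul_le_mul (hhS j m).le (hpa i).le
    · rw [mul_comm]; exact Nat.mul_le_mul (hhS j m).le (hpb i).le) hNdet0
  have hDle : (D : ℝ) ≤ Real.exp (6 * S * T * L) := by
    rw [hD]
    push_cast
    calc ∏ m, (((u m).den : ℝ) ^ (S * T) * ((r m).den : ℝ) ^ (S * T))
        ≤ ∏ _m : Fin 3, (Real.exp L ^ (S * T) * Real.exp L ^ (S * T)) := by
          refine prod_le_prod (fun m _ => by positivity) fun m _ => ?_
          exact mul_le_mul (pow_le_pow_left₀ (by positivity) (hud m) _)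
            (pow_le_pow_left₀ (by positivity) (hrd m) _) (by positivity) (by positivity)
      _ = _ := by
          rw [prod_const, card_univ, Fintype.card_fin, ← Real.exp_nat_mul, ← Real.exp_add,
            ← Real.exp_nat_mul]
          congr 1
          push_cast
          ring
  have hDn : Real.exp (-(n * (6 * S * T * L))) ≤ ((D : ℝ) ^ n)⁻¹ := by
    rw [Real.exp_neg]
    refine inv_anti₀ (by positivity) ?_
    rw [Real.exp_nat_mul]
    exact pow_le_pow_left₀ (by positivity) hDle _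
  have hNup : |((N.det : ℚ) : ℝ)| ≤ 3 / 2 * Real.exp (-(n : ℝ) ^ 2) := by
    have hE := Real.exp_pos (-(n : ℝ) ^ 2)
    rw [abs_le]
    constructor <;> linarith
  have hfin : Real.exp (-(n * (6 * S * T * L))) ≤ 3 / 2 * Real.exp (-(n : ℝ) ^ 2) := hDn.trans (hge.trans hNup)
  have hlt : 3 / 2 * Real.exp (-(n : ℝ) ^ 2) < Real.exp (-(n * (6 * S * T * L))) := by
    have e1 : (6 : ℝ) * S * T * L ≤ n / 2 := by
      have : (6 : ℝ) * S * T * L = 6 * x ^ 5 * L := by rw [hSx, hTx]; ring
      rw [this, hnx]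
      have hL2 : L ≤ x / 666 := by
        rw [le_div_iff₀ (by norm_num)]
        nlinarith
      calc 6 * x ^ 5 * L ≤ 6 * x ^ 5 * (x / 666) := mul_le_mul_of_nonneg_left hL2 (by positivity)
        _ = x ^ 6 / 111 := by ring
        _ ≤ x ^ 6 / 2 := by
            have : 0 < x ^ 6 := by positivity
            linarith
    have e2 : (n : ℝ) * (6 * S * T * L) ≤ n * (n / 2) := mul_le_mul_of_nonneg_left e1 hnR0.le
    have e3 : (666 : ℝ) ≤ n := by
      have : R ≤ R ^ 6 := Nat.le_self_pow (by norm_num) R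
      exact_mod_cast hR1.trans this
    have e4 : (3 : ℝ) / 2 ≤ Real.exp 1 := by
      have := Real.add_one_le_exp (1 : ℝ)
      linarith
    calc 3 / 2 * Real.exp (-(n : ℝ) ^ 2) ≤ Real.exp 1 * Real.exp (-(n : ℝ) ^ 2) :=
          mul_le_mul_of_nonneg_right e4 (Real.exp_pos _).le
      _ = Real.exp (1 + -(n : ℝ) ^ 2) := (Real.exp_add _ _).symm
      _ < _ := Real.exp_lt_exp.2 (by nlinarith)
  exact absurd hfin (not_le.2 hlt)

end Pool.Agent.N886.SE
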