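import Pool.Agent.N886.SE.Mat
import Pool.Agent.N886.SE.Gen

/-!
# Nearly singular matrices of logarithms of rational numbers: the uniform six exponentials theorem
-/

set_option autoImplicit false

namespace Pool.Agent.N886.SE

open Finset

/-- the logarithm of a rational number different from one is not small -/
theorem log_ge {L : ℝ} (hL : 0 ≤ L) {q : ℚ} (hq : 0 < q) (hn : (q.num : ℝ) ≤ Real.exp L)
    (hd : (q.den : ℝ) ≤ Real.exp L) (h0 : Real.log q ≠ 0) : Real.exp (-L) ≤ |Real.log q| := by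
  have h1 := log_rat hq
  have hnum : (0 : ℤ) < q.num := Rat.num_pos.2 hq
  have h3 : 1 ≤ q.num.toNat := by omega
  have h4 : (q.num.toNat : ℝ) ≤ Real.exp L := by
    have : ((q.num.toNat : ℕ) : ℤ) = q.num := Int.toNat_of_nonneg hnum.le
    have h6 : ((q.num.toNat : ℕ) : ℝ) = (q.num : ℝ) := by
      exact_mod_cast congrArg (fun z : ℤ => (z : ℝ)) this
    rw [h6]; exact hn
  have hne : q.num.toNat ≠ q.den := by
    intro h
    apply h0
    rw [h1, h, sub_self]
  have h5 := log_sub_log_ge h3 q.den_pos hne h4 hd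
  rw [← h1, ← Real.exp_neg] at h5
  exact h5

theorem inv_num_den {q : ℚ} (hq : 0 < q) : ((q⁻¹).num : ℝ) = q.den ∧ ((q⁻¹).den : ℝ) = q.num := by
  have hnum : (0 : ℤ) < q.num := Rat.num_pos.2 hq
  constructor
  · rw [Rat.num_inv, Int.sign_eq_one_of_pos hnum, one_mul]
    simp
  · rw [Rat.den_inv, if_neg hnum.ne']
    have : ((q.num.natAbs : ℕ) : ℤ) = q.num := Int.natAbs_of_nonneg hnum.le
    have h5 : ((q.num.natAbs : ℕ) : ℝ) = (((q.num.natAbs : ℕ) : ℤ) : ℝ) := (Int.cast_natCast _).symm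
    rw [h5, this]

/-- **Two minors.** -/
theorem minors (R : ℕ) (L : ℝ) (hL : 1 ≤ L) (hR : 1332 * L ≤ R) (u r : Fin 3 → ℚ)
    (hu : ∀ m, 0 < u m) (hr : ∀ m, 0 < r m)
    (hun : ∀ m, ((u m).num : ℝ) ≤ Real.exp L) (hud : ∀ m, ((u m).den : ℝ) ≤ Real.exp L)
    (hrn : ∀ m, ((r m).num : ℝ) ≤ Real.exp L) (hrd : ∀ m, ((r m).den : ℝ) ≤ Real.exp L)
    (hu0 : Real.log (u 0) ≠ 0) (hle : |Real.log (r 0)| ≤ |Real.log (u 0)|)
    (hmin : ∀ m, |Real.log (u 0) * Real.log (r m) - Real.log (r 0) * Real.log (u m)| ≤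
      Real.exp (-(3 * (R : ℝ) ^ 16))) :
    (∃ d : Fin 3 → ℤ, d ≠ 0 ∧ ∑ m, (d m : ℝ) * Real.log (u m) = 0 ∧ ∑ m, (d m : ℝ) * Real.log (r m) = 0) ∨
    ∃ x y : ℤ, (x ≠ 0 ∨ y ≠ 0) ∧ ∀ m, (x : ℝ) * Real.log (u m) + y * Real.log (r m) = 0 := by
  have hL0 : 0 ≤ L := by linarith
  have hR666 : (666 : ℝ) ≤ R := by linarith
  have hlu := log_ge hL0 (hu 0) (hun 0) (hud 0) hu0
  set θ : ℝ := Real.log (r 0) / Real.log (u 0) with hθ
  have hθu : Real.log (r 0) = θ * Real.log (u 0) := by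
    rw [hθ]
    field_simp
  have hθ1 : |θ| ≤ 1 := by
    rw [hθ, abs_div]
    exact div_le_one_of_le₀ hle (abs_nonneg _)
  have hcl : ∀ m, |Real.log (r m) - θ * Real.log (u m)| ≤ Real.exp (-(2 * (R : ℝ) ^ 16)) := by
    intro m
    have e1 : Real.log (u 0) * Real.log (r m) - Real.log (r 0) * Real.log (u m) =
        Real.log (u 0) * (Real.log (r m) - θ * Real.log (u m)) := by
      rw [hθu]; ring
    have h1 := hmin m
    rw [e1, abs_mul] at h1
    have h2 : Real.exp (-L) * |Real.log (r m) - θ * Real.log (u m)| ≤ Real.exp (-(3 * (R : ℝ) ^ 16)) :=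
      (mul_le_mul_of_nonneg_right hlu (abs_nonneg _)).trans h1
    have h3 : |Real.log (r m) - θ * Real.log (u m)| ≤ Real.exp L * Real.exp (-(3 * (R : ℝ) ^ 16)) := by
      have h4 := mul_le_mul_of_nonneg_left h2 (Real.exp_pos L).le
      rw [← mul_assoc, ← Real.exp_add, add_neg_cancel, Real.exp_zero, one_mul] at h4
      exact h4
    refine h3.trans ?_
    rw [← Real.exp_add]
    refine Real.exp_le_exp.2 ?_
    have h5 : L ≤ (R : ℝ) ^ 16 := by
      have : (R : ℝ) ≤ (R : ℝ) ^ 16 := le_self_pow₀ (by linarith) (by norm_num)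
      linarith
    linarith
  rcases le_total 0 θ with h0 | h0
  · exact aux R L hL hR u r hu hr hun hud hrn hrd θ h0 ((le_abs_self _).trans hθ1) hu0 hθu hcl
  · have hlogi : ∀ m, Real.log (((r m)⁻¹ : ℚ) : ℝ) = -Real.log (r m) := fun m => by
      rw [Rat.cast_inv, Real.log_inv]
    have h1 := aux R L hL hR u (fun m => (r m)⁻¹) hu (fun m => inv_pos.2 (hr m)) hun hud
      (fun m => by rw [(inv_num_den (hr m)).1]; exact hrd m)
      (fun m => by rw [(inv_num_den (hr m)).2]; exact hrn m) (-θ) (by linarith)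
      ((neg_le_abs _).trans hθ1) hu0 (by rw [hlogi, hθu]; ring) (fun m => by
        rw [hlogi]
        have e : -Real.log (r m) - -θ * Real.log (u m) = -(Real.log (r m) - θ * Real.log (u m)) := by ring
        rw [e, abs_neg]
        exact hcl m)
    rcases h1 with ⟨d, hd, h2, h3⟩ | ⟨x, y, hxy, h2⟩
    · refine Or.inl ⟨d, hd, h2, ?_⟩
      have h4 : ∑ m, (d m : ℝ) * Real.log (((r m)⁻¹ : ℚ) : ℝ) = -∑ m, (d m : ℝ) * Real.log (r m) := by
        rw [← sum_neg_distrib]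
        refine sum_congr rfl fun m _ => ?_
        rw [hlogi]
        ring
      rw [h4] at h3
      linarith
    · refine Or.inr ⟨x, -y, by omega, fun m => ?_⟩
      have h4 := h2 m
      rw [hlogi] at h4
      push_cast
      linarith

/-- the constant -/
noncomputable def C0 : ℝ := 3 * 2002 ^ 16

theorem C0_pos : 0 < C0 := by unfold C0; positivity

theorem exists_R' {H : ℕ} (hH : 2 ≤ H) : ∃ (R : ℕ) (L : ℝ), 1 ≤ L ∧ 1332 * L ≤ R ∧ (H : ℝ) ≤ Real.exp L ∧
    3 * (R : ℝ) ^ 16 ≤ C0 * Real.log H ^ 16 := by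
  obtain ⟨R, L, h1, h2, h3, h4⟩ := exists_R (θ := 1) zero_le_one hH
  refine ⟨R, L, h1, by linarith, h3, ?_⟩
  have h5 : (R : ℝ) ^ 16 ≤ (2002 * Real.log H) ^ 16 := by
    refine pow_le_pow_left₀ (by positivity) ?_ _
    linarith
  unfold C0
  rw [mul_pow] at h5
  linarith

/-- **The uniform six exponentials theorem**, first row. -/
theorem row_zero {H : ℕ} (hH : 2 ≤ H) (a : Fin 3 → Fin 2 → ℚ) (hpos : ∀ i j, 0 < a i j)
    (hnum : ∀ i j, (a i j).num ≤ H) (hden : ∀ i j, (a i j).den ≤ H)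
    (hmin : ∀ j, |Real.log (a 0 0) * Real.log (a j 1) - Real.log (a 0 1) * Real.log (a j 0)| ≤
      Real.exp (-(C0 * Real.log H ^ 16))) :
    (∃ d : Fin 3 → ℤ, d ≠ 0 ∧ ∀ j, ∑ m, (d m : ℝ) * Real.log (a m j) = 0) ∨
    ∃ x y : ℤ, (x ≠ 0 ∨ y ≠ 0) ∧ ∀ m, (x : ℝ) * Real.log (a m 0) + y * Real.log (a m 1) = 0 := by
  obtain ⟨R, L, hL, hRL, hHL, hC⟩ := exists_R' hH
  have hnum' : ∀ i j, ((a i j).num : ℝ) ≤ Real.exp L := fun i j => by
    have : (((a i j).num : ℤ) : ℝ) ≤ ((H : ℤ) : ℝ) := Int.cast_le.2 (hnum i j)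
    exact (this.trans (le_of_eq (by simp))).trans hHL
  have hden' : ∀ i j, ((a i j).den : ℝ) ≤ Real.exp L := fun i j => by
    have : ((a i j).den : ℝ) ≤ (H : ℝ) := by exact_mod_cast hden i j
    exact this.trans hHL
  have hmin' : ∀ j, |Real.log (a 0 0) * Real.log (a j 1) - Real.log (a 0 1) * Real.log (a j 0)| ≤
      Real.exp (-(3 * (R : ℝ) ^ 16)) := fun j => (hmin j).trans (Real.exp_le_exp.2 (by linarith))
  by_cases hz : Real.log (a 0 0) = 0 ∧ Real.log (a 0 1) = 0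
  · left
    refine ⟨![1, 0, 0], fun h => by simpa using congrFun h 0, fun j => ?_⟩
    rw [Fin.sum_univ_three]
    fin_cases j
    · simp [hz.1]
    · simp [hz.2]
  rcases le_total |Real.log (a 0 1)| |Real.log (a 0 0)| with hle | hle
  · have h0 : Real.log (a 0 0) ≠ 0 := by
      intro h
      rw [h, abs_zero] at hle
      exact hz ⟨h, abs_nonpos_iff.1 hle⟩
    rcases minors R L hL hRL (fun m => a m 0) (fun m => a m 1) (fun m => hpos m 0) (fun m => hpos m 1)
      (fun m => hnum' m 0) (fun m => hden' m 0) (fun m => hnum' m 1) (fun m => hden' m 1) h0 hle hmin' with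
      ⟨d, hd, h1, h2⟩ | ⟨x, y, hxy, h1⟩
    · refine Or.inl ⟨d, hd, fun j => ?_⟩
      fin_cases j
      · exact h1
      · exact h2
    · exact Or.inr ⟨x, y, hxy, h1⟩
  · have h0 : Real.log (a 0 1) ≠ 0 := by
      intro h
      rw [h, abs_zero] at hle
      exact hz ⟨abs_nonpos_iff.1 hle, h⟩
    rcases minors R L hL hRL (fun m => a m 1) (fun m => a m 0) (fun m => hpos m 1) (fun m => hpos m 0)
      (fun m => hnum' m 1) (fun m => hden' m 1) (fun m => hnum' m 0) (fun m => hden' m 0) h0 hle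
      (fun m => by rw [abs_sub_comm]; exact hmin' m) with
      ⟨d, hd, h1, h2⟩ | ⟨x, y, hxy, h1⟩
    · refine Or.inl ⟨d, hd, fun j => ?_⟩
      fin_cases j
      · exact h2
      · exact h1
    · exact Or.inr ⟨y, x, by tauto, fun m => by have := h1 m; linarith⟩

end Pool.Agent.N886.SE
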